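import Mathlib
import Pool.Agent.Helper180.Defs

/-! The Grigorchuk group acting on the binary rooted tree and its elementary theory. -/

namespace Pool.Agent.Helper180.Grig

open Pool.Agent.Helper180.Defs

/-- the action of the generator `a` on the vertices (`false` is the letter `0`, `true` is `1`) -/
def fa : List Bool → List Bool
  | [] => []
  | false :: w => true :: w
  | true :: w => false :: w

mutual
/-- the action of the generator `b` -/
def fb : List Bool → List Bool
  | [] => []
  | false :: w => false :: fa w
  | true :: w => true :: fc w
/-- the action of the generator `c` -/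
def fc : List Bool → List Bool
  | [] => []
  | false :: w => false :: fa w
  | true :: w => true :: fd w
/-- the action of the generator `d` -/
def fd : List Bool → List Bool
  | [] => []
  | false :: w => false :: w
  | true :: w => true :: fb w
end

theorem fa_fa (w : List Bool) : fa (fa w) = w := by
  rcases w with _ | ⟨x, w⟩
  · rfl
  · cases x <;> rfl

theorem fbcd (w : List Bool) : fb (fb w) = w ∧ fc (fc w) = w ∧ fd (fd w) = w := by
  induction w with
  | nil => exact ⟨rfl, rfl, rfl⟩
  | cons x w ih =>
    cases x
    · simp [fb, fc, fd, fa_fa]
    · simp [fb, fc, fd, ih]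

/-- the generator `a` as a permutation of the set of vertices -/
def pa : Equiv.Perm (List Bool) := ⟨fa, fa, fa_fa, fa_fa⟩
/-- the generator `b` as a permutation of the set of vertices -/
def pb : Equiv.Perm (List Bool) := ⟨fb, fb, fun w => (fbcd w).1, fun w => (fbcd w).1⟩
/-- the generator `c` as a permutation of the set of vertices -/
def pc : Equiv.Perm (List Bool) := ⟨fc, fc, fun w => (fbcd w).2.1, fun w => (fbcd w).2.1⟩
/-- the generator `d` as a permutation of the set of vertices -/
def pd : Equiv.Perm (List Bool) := ⟨fd, fd, fun w => (fbcd w).2.2, fun w => (fbcd w).2.2⟩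

/-- the Grigorchuk group -/
def Gr : Subgroup (Equiv.Perm (List Bool)) := Subgroup.closure {pa, pb, pc, pd}

/-- The elementary theory of the Grigorchuk group: the sentences (formulas without free variables)
that are true in it. -/
def theoryGr : Set Formula := {φ | φ.free = ∅ ∧ ∀ v : ℕ → Gr, φ.Holds v}

end Pool.Agent.Helper180.Grig
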