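import Mathlib
import Pool.Agent.Helper180.Grig.Defs

/-! Basic facts on the Grigorchuk group. -/

namespace Pool.Agent.Helper180.Grig

theorem ai (g : Equiv.Perm (List Bool)) (w : List Bool) : g (g⁻¹ w) = w := g.apply_symm_apply w
theorem ia (g : Equiv.Perm (List Bool)) (w : List Bool) : g⁻¹ (g w) = w := g.symm_apply_apply w

/-! ### tree automorphisms -/

/-- permutations that preserve the length and the prefix order -/
def IsAut (g : Equiv.Perm (List Bool)) : Prop :=
  ∀ w, (g w).length = w.length ∧ ∀ u, g w <+: g (w ++ u)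

theorem isAut_one : IsAut 1 := fun w => ⟨rfl, fun u => List.prefix_append w u⟩

theorem isAut_mul {g h : Equiv.Perm (List Bool)} (hg : IsAut g) (hh : IsAut h) : IsAut (g * h) := by
  intro w
  refine ⟨by rw [Equiv.Perm.mul_apply, (hg _).1, (hh _).1], fun u => ?_⟩
  obtain ⟨r, hr⟩ := (hh w).2 u
  rw [Equiv.Perm.mul_apply, Equiv.Perm.mul_apply, ← hr]
  exact (hg _).2 r

theorem isAut_inv {g : Equiv.Perm (List Bool)} (hg : IsAut g) : IsAut g⁻¹ := by
  have hl : ∀ w, (g⁻¹ w).length = w.length := by
    intro w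
    have := (hg (g⁻¹ w)).1
    rw [ai] at this
    exact this.symm
  intro w
  refine ⟨hl w, fun u => ?_⟩
  set x := g⁻¹ (w ++ u) with hx
  have h1 : g x = w ++ u := by rw [hx, ai]
  have h2 := (hg (x.take w.length)).2 (x.drop w.length)
  rw [List.take_append_drop, h1] at h2
  have h3 : (g (x.take w.length)).length = w.length := by
    rw [(hg _).1, List.length_take, hx, hl, List.length_append]
    omega
  have h4 : g (x.take w.length) = w := by
    have h5 := List.prefix_of_prefix_length_le h2 (List.prefix_append w u) h3.le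
    exact h5.eq_of_length h3
  have h6 : g⁻¹ w = x.take w.length := by
    rw [Equiv.Perm.inv_eq_iff_eq, h4]
  rw [h6]
  exact List.take_prefix _ _

theorem fa_aut (w : List Bool) : (fa w).length = w.length ∧ ∀ u, fa w <+: fa (w ++ u) := by
  rcases w with _ | ⟨x, w⟩
  · exact ⟨rfl, fun u => List.nil_prefix⟩
  · cases x <;> simp [fa]

theorem fbcd_aut (w : List Bool) : ((fb w).length = w.length ∧ ∀ u, fb w <+: fb (w ++ u)) ∧
    ((fc w).length = w.length ∧ ∀ u, fc w <+: fc (w ++ u)) ∧
    ((fd w).length = w.length ∧ ∀ u, fd w <+: fd (w ++ u)) := by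
  induction w with
  | nil => simp [fb, fc, fd]
  | cons x w ih =>
    cases x
    · have := fa_aut w
      simp [fb, fc, fd, this]
    · simp [fb, fc, fd, ih]

theorem isAut_of_mem {g : Equiv.Perm (List Bool)} (hg : g ∈ Gr) : IsAut g := by
  induction hg using Subgroup.closure_induction with
  | mem x hx =>
    simp only [Set.mem_insert_iff, Set.mem_singleton_iff] at hx
    rcases hx with rfl | rfl | rfl | rfl
    · exact fun w => fa_aut w
    · exact fun w => (fbcd_aut w).1
    · exact fun w => (fbcd_aut w).2.1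
    · exact fun w => (fbcd_aut w).2.2
  | one => exact isAut_one
  | mul x y _ _ hx hy => exact isAut_mul hx hy
  | inv x _ hx => exact isAut_inv hx

/-! ### values of the generators -/

@[simp] theorem pa_nil : pa [] = [] := rfl
@[simp] theorem pa_f (w : List Bool) : pa (false :: w) = true :: w := rfl
@[simp] theorem pa_t (w : List Bool) : pa (true :: w) = false :: w := rfl
@[simp] theorem pb_nil : pb [] = [] := by show fb [] = []; simp [fb]
@[simp] theorem pb_f (w : List Bool) : pb (false :: w) = false :: pa w := by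
  show fb (false :: w) = false :: fa w; simp [fb]
@[simp] theorem pb_t (w : List Bool) : pb (true :: w) = true :: pc w := by
  show fb (true :: w) = true :: fc w; simp [fb]
@[simp] theorem pc_nil : pc [] = [] := by show fc [] = []; simp [fc]
@[simp] theorem pc_f (w : List Bool) : pc (false :: w) = false :: pa w := by
  show fc (false :: w) = false :: fa w; simp [fc]
@[simp] theorem pc_t (w : List Bool) : pc (true :: w) = true :: pd w := by
  show fc (true :: w) = true :: fd w; simp [fc]
@[simp] theorem pd_nil : pd [] = [] := by show fd [] = []; simp [fd]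
@[simp] theorem pd_f (w : List Bool) : pd (false :: w) = false :: w := by
  show fd (false :: w) = false :: w; simp [fd]
@[simp] theorem pd_t (w : List Bool) : pd (true :: w) = true :: pb w := by
  show fd (true :: w) = true :: fb w; simp [fd]
@[simp] theorem pa_pa (w : List Bool) : pa (pa w) = w := fa_fa w
@[simp] theorem pb_pb (w : List Bool) : pb (pb w) = w := (fbcd w).1
@[simp] theorem pc_pc (w : List Bool) : pc (pc w) = w := (fbcd w).2.1
@[simp] theorem pd_pd (w : List Bool) : pd (pd w) = w := (fbcd w).2.2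
@[simp] theorem pa_inv : pa⁻¹ = pa := rfl
@[simp] theorem pb_inv : pb⁻¹ = pb := rfl
@[simp] theorem pc_inv : pc⁻¹ = pc := rfl
@[simp] theorem pd_inv : pd⁻¹ = pd := rfl

theorem klein (w : List Bool) : pb (pc w) = pd w ∧ pc (pd w) = pb w ∧ pd (pb w) = pc w ∧
    pc (pb w) = pd w ∧ pd (pc w) = pb w ∧ pb (pd w) = pc w := by
  induction w with
  | nil => simp
  | cons x w ih =>
    obtain ⟨h1, h2, h3, h4, h5, h6⟩ := ih
    cases x <;> simp [*]

theorem pa_mem : pa ∈ Gr := Subgroup.subset_closure (by simp)
theorem pb_mem : pb ∈ Gr := Subgroup.subset_closure (by simp)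
theorem pc_mem : pc ∈ Gr := Subgroup.subset_closure (by simp)
theorem pd_mem : pd ∈ Gr := Subgroup.subset_closure (by simp)

/-! ### lifting to the subtrees -/

theorem lift0 {g : Equiv.Perm (List Bool)} (hg : g ∈ Gr) :
    ∃ g' ∈ Gr, ∀ w, g' (false :: w) = false :: g w := by
  induction hg using Subgroup.closure_induction with
  | mem x hx =>
    simp only [Set.mem_insert_iff, Set.mem_singleton_iff] at hx
    rcases hx with rfl | rfl | rfl | rfl
    · exact ⟨pb, pb_mem, fun w => by simp⟩
    · exact ⟨pa * pd * pa, mul_mem (mul_mem pa_mem pd_mem) pa_mem, fun w => by simp⟩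
    · exact ⟨pa * pb * pa, mul_mem (mul_mem pa_mem pb_mem) pa_mem, fun w => by simp⟩
    · exact ⟨pa * pc * pa, mul_mem (mul_mem pa_mem pc_mem) pa_mem, fun w => by simp⟩
  | one => exact ⟨1, one_mem _, fun w => rfl⟩
  | mul x y _ _ hx hy =>
    obtain ⟨x', hx', hx⟩ := hx
    obtain ⟨y', hy', hy⟩ := hy
    exact ⟨x' * y', mul_mem hx' hy', fun w => by simp [hx, hy]⟩
  | inv x _ hx =>
    obtain ⟨x', hx', hx⟩ := hx
    refine ⟨x'⁻¹, inv_mem hx', fun w => ?_⟩
    rw [Equiv.Perm.inv_eq_iff_eq, hx, ai]

theorem lift1 {g : Equiv.Perm (List Bool)} (hg : g ∈ Gr) :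
    ∃ g' ∈ Gr, ∀ w, g' (true :: w) = true :: g w := by
  obtain ⟨g', hg', h⟩ := lift0 hg
  exact ⟨pa * g' * pa, mul_mem (mul_mem pa_mem hg') pa_mem, fun w => by simp [h]⟩

theorem liftx (x : Bool) {g : Equiv.Perm (List Bool)} (hg : g ∈ Gr) :
    ∃ g' ∈ Gr, ∀ w, g' (x :: w) = x :: g w := by
  cases x
  · exact lift0 hg
  · exact lift1 hg

theorem liftv (v : List Bool) {g : Equiv.Perm (List Bool)} (hg : g ∈ Gr) :
    ∃ g' ∈ Gr, ∀ w, g' (v ++ w) = v ++ g w := by
  induction v with
  | nil => exact ⟨g, hg, fun w => rfl⟩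
  | cons x v ih =>
    obtain ⟨g', hg', h⟩ := ih
    obtain ⟨g'', hg'', h'⟩ := liftx x hg'
    exact ⟨g'', hg'', fun w => by simp [h', h]⟩

/-- the group is transitive on the levels of the tree -/
theorem trans_level (u w : List Bool) (h : u.length = w.length) : ∃ g ∈ Gr, g u = w := by
  induction u generalizing w with
  | nil =>
    have : w = [] := List.length_eq_zero_iff.1 h.symm
    subst this
    exact ⟨1, one_mem _, rfl⟩
  | cons x u ih =>
    rcases w with _ | ⟨y, w⟩
    · simp at h
    · obtain ⟨g, hg, e⟩ := ih w (by simpa using h)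
      obtain ⟨g', hg', h'⟩ := liftx x hg
      by_cases hxy : x = y
      · subst hxy
        exact ⟨g', hg', by rw [h', e]⟩
      · refine ⟨pa * g', mul_mem pa_mem hg', ?_⟩
        rw [Equiv.Perm.mul_apply, h', e]
        cases x <;> cases y <;> simp_all

/-! ### elements supported in a subtree -/

/-- `d0 g` acts as `g` on the left subtree and trivially elsewhere -/
def d0 : Equiv.Perm (List Bool) →* Equiv.Perm (List Bool) where
  toFun g :=
    { toFun := fun w => match w with
        | [] => []
        | false :: w => false :: g w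
        | true :: w => true :: w
      invFun := fun w => match w with
        | [] => []
        | false :: w => false :: g⁻¹ w
        | true :: w => true :: w
      left_inv := by rintro (_ | ⟨_ | _, w⟩) <;> simp
      right_inv := by rintro (_ | ⟨_ | _, w⟩) <;> simp }
  map_one' := by ext1 w; rcases w with (_ | ⟨_ | _, w⟩) <;> rfl
  map_mul' g h := by ext1 w; rcases w with (_ | ⟨_ | _, w⟩) <;> rfl

@[simp] theorem d0_nil (g : Equiv.Perm (List Bool)) : d0 g [] = [] := rfl
@[simp] theorem d0_f (g : Equiv.Perm (List Bool)) (w : List Bool) :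
    d0 g (false :: w) = false :: g w := rfl
@[simp] theorem d0_t (g : Equiv.Perm (List Bool)) (w : List Bool) :
    d0 g (true :: w) = true :: w := rfl

/-- `d1 g` acts as `g` on the right subtree and trivially elsewhere -/
def d1 (g : Equiv.Perm (List Bool)) : Equiv.Perm (List Bool) := pa * d0 g * pa

@[simp] theorem d1_nil (g : Equiv.Perm (List Bool)) : d1 g [] = [] := rfl
@[simp] theorem d1_f (g : Equiv.Perm (List Bool)) (w : List Bool) :
    d1 g (false :: w) = false :: w := rfl
@[simp] theorem d1_t (g : Equiv.Perm (List Bool)) (w : List Bool) :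
    d1 g (true :: w) = true :: g w := rfl

theorem nil_fix {g : Equiv.Perm (List Bool)} (hg : IsAut g) : g [] = [] :=
  List.length_eq_zero_iff.1 (hg []).1

/-- an automorphism that lifts `g` at `false` maps `true :: w` to some `true :: w'` -/
theorem lift_other {g' g : Equiv.Perm (List Bool)}
    (h : ∀ w, g' (false :: w) = false :: g w) (w : List Bool) (hg' : IsAut g') :
    ∃ w', g' (true :: w) = true :: w' := by
  rcases hw : g' (true :: w) with _ | ⟨x, w'⟩
  · have := (hg' (true :: w)).1
    rw [hw] at this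
    simp at this
  · cases x
    · have h1 := h (g⁻¹ w')
      rw [ai, ← hw] at h1
      have := g'.injective h1
      simp at this
    · exact ⟨w', rfl⟩

theorem d0_conj {g' g : Equiv.Perm (List Bool)}
    (h : ∀ w, g' (false :: w) = false :: g w) (hg' : IsAut g')
    (k : Equiv.Perm (List Bool)) : g' * d0 k * g'⁻¹ = d0 (g * k * g⁻¹) := by
  have key : g' * d0 k = d0 (g * k * g⁻¹) * g' := by
    ext1 w
    rcases w with (_ | ⟨_ | _, w⟩)
    · simp only [Equiv.Perm.mul_apply, d0_nil, nil_fix hg']
    · simp only [Equiv.Perm.mul_apply, d0_f, h, ia]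
    · obtain ⟨w', hw'⟩ := lift_other h w hg'
      simp only [Equiv.Perm.mul_apply, d0_t, hw']
  rw [key, mul_inv_cancel_right]

/-- the element `(ab)^2` -/
def tt : Equiv.Perm (List Bool) := pa * pb * pa * pb

/-- the normal closure of `(ab)^2` in the Grigorchuk group -/
def KK : Subgroup (Equiv.Perm (List Bool)) :=
  Subgroup.closure {k | ∃ g ∈ Gr, k = g * tt * g⁻¹}

theorem tt_mem : tt ∈ Gr := mul_mem (mul_mem (mul_mem pa_mem pb_mem) pa_mem) pb_mem

theorem KK_le : KK ≤ Gr := by
  refine (Subgroup.closure_le _).2 ?_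
  rintro _ ⟨g, hg, rfl⟩
  exact mul_mem (mul_mem hg tt_mem) (inv_mem hg)

theorem KK_conj {g k : Equiv.Perm (List Bool)} (hg : g ∈ Gr) (hk : k ∈ KK) :
    g * k * g⁻¹ ∈ KK := by
  induction hk using Subgroup.closure_induction with
  | mem x hx =>
    obtain ⟨h, hh, rfl⟩ := hx
    refine Subgroup.subset_closure ⟨g * h, mul_mem hg hh, by group⟩
  | one => rw [mul_one, mul_inv_cancel]; exact one_mem _
  | mul x y _ _ hx hy =>
    have : g * (x * y) * g⁻¹ = (g * x * g⁻¹) * (g * y * g⁻¹) := by group
    rw [this]; exact mul_mem hx hy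
  | inv x _ hx =>
    have : g * x⁻¹ * g⁻¹ = (g * x * g⁻¹)⁻¹ := by group
    rw [this]; exact inv_mem hx

theorem tt_mem_KK : tt ∈ KK := Subgroup.subset_closure ⟨1, one_mem _, by group⟩

theorem d0_tt : d0 tt = tt⁻¹ * ((pa * pd) * tt⁻¹ * (pa * pd)⁻¹) := by
  ext1 w
  have e1 : tt⁻¹ = pb * pa * pb * pa := by
    unfold tt; simp [mul_assoc]
  rw [e1]
  unfold tt
  rcases w with (_ | ⟨_ | _, w⟩)
  · simp
  · obtain ⟨h1, h2, h3, h4, h5, h6⟩ := klein w
    simp [klein]
  · simp

theorem d0_mem_KK {k : Equiv.Perm (List Bool)} (hk : k ∈ KK) : d0 k ∈ KK := by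
  induction hk using Subgroup.closure_induction with
  | mem x hx =>
    obtain ⟨g, hg, rfl⟩ := hx
    obtain ⟨g', hg', h⟩ := lift0 hg
    rw [← d0_conj h (isAut_of_mem hg')]
    refine KK_conj hg' ?_
    rw [d0_tt]
    exact mul_mem (inv_mem tt_mem_KK)
      (KK_conj (mul_mem pa_mem pd_mem) (inv_mem tt_mem_KK))
  | one => rw [map_one]; exact one_mem _
  | mul x y _ _ hx hy => rw [map_mul]; exact mul_mem hx hy
  | inv x _ hx => rw [map_inv]; exact inv_mem hx

theorem d1_mem_KK {k : Equiv.Perm (List Bool)} (hk : k ∈ KK) : d1 k ∈ KK :=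
  KK_conj pa_mem (d0_mem_KK hk)

/-- the element acting as `k` on the subtree below `v` and trivially elsewhere -/
def emb : List Bool → Equiv.Perm (List Bool) → Equiv.Perm (List Bool)
  | [], k => k
  | false :: v, k => d0 (emb v k)
  | true :: v, k => d1 (emb v k)

theorem emb_mem {v : List Bool} {k : Equiv.Perm (List Bool)} (hk : k ∈ KK) : emb v k ∈ KK := by
  induction v with
  | nil => exact hk
  | cons x v ih =>
    cases x
    · exact d0_mem_KK ih
    · exact d1_mem_KK ih

theorem emb_apply (v w : List Bool) (k : Equiv.Perm (List Bool)) : emb v k (v ++ w) = v ++ k w := by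
  induction v with
  | nil => rfl
  | cons x v ih =>
    cases x <;> simp [emb, ih]

theorem emb_off (v w : List Bool) {k : Equiv.Perm (List Bool)} (h : ¬ v <+: w) :
    emb v k w = w := by
  induction v generalizing w with
  | nil => exact absurd List.nil_prefix h
  | cons x v ih =>
    rcases w with _ | ⟨y, w⟩
    · cases x <;> rfl
    · cases x <;> cases y <;> simp_all [emb]

theorem tt_f (w : List Bool) : tt (false :: w) = false :: pc (pa w) := by simp [tt]
theorem tt_t (w : List Bool) : tt (true :: w) = true :: pa (pc w) := by simp [tt]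

end Pool.Agent.Helper180.Grig
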