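import Mathlib
import Pool.Agent.Helper180.Grig.Gp

/-! Transitivity properties of the Grigorchuk group. -/

namespace Pool.Agent.Helper180.Grig

/-- the permutations `g` such that `d0 g` is in the group -/
def B0 : Subgroup (Equiv.Perm (List Bool)) := Gr.comap d0

theorem mem_B0 {g : Equiv.Perm (List Bool)} : g ∈ B0 ↔ d0 g ∈ Gr := Iff.rfl

theorem d1_mem {g : Equiv.Perm (List Bool)} (h : g ∈ B0) : d1 g ∈ Gr :=
  mul_mem (mul_mem pa_mem h) pa_mem

theorem B0_conj {g k : Equiv.Perm (List Bool)} (hg : g ∈ Gr) (hk : k ∈ B0) :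
    g * k * g⁻¹ ∈ B0 := by
  obtain ⟨g', hg', h⟩ := lift0 hg
  rw [mem_B0, ← d0_conj h (isAut_of_mem hg')]
  exact mul_mem (mul_mem hg' hk) (inv_mem hg')

theorem pb_mem_B0 : pb ∈ B0 := by
  have : d0 pb = pa * pd * pa := by
    ext1 w
    rcases w with (_ | ⟨_ | _, w⟩) <;> simp
  rw [mem_B0, this]
  exact mul_mem (mul_mem pa_mem pd_mem) pa_mem

/-- sections at `false` of the elements of `B0` -/
def S0 (s : Equiv.Perm (List Bool)) : Prop :=
  ∃ β ∈ B0, ∀ w, β (false :: w) = false :: s w

theorem S0_mul {s t : Equiv.Perm (List Bool)} (hs : S0 s) (ht : S0 t) : S0 (s * t) := by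
  obtain ⟨x, hx, h1⟩ := hs
  obtain ⟨y, hy, h2⟩ := ht
  exact ⟨x * y, mul_mem hx hy, fun w => by simp [h1, h2]⟩

theorem S0_inv {s : Equiv.Perm (List Bool)} (hs : S0 s) : S0 s⁻¹ := by
  obtain ⟨x, hx, h1⟩ := hs
  refine ⟨x⁻¹, inv_mem hx, fun w => ?_⟩
  rw [Equiv.Perm.inv_eq_iff_eq, h1, ai]

theorem S0_a : S0 pa := ⟨pb, pb_mem_B0, fun w => by simp⟩
theorem S0_c : S0 pc := ⟨pa * pb * pa⁻¹, B0_conj pa_mem pb_mem_B0, fun w => by simp⟩
theorem S0_bab : S0 (pb * pa * pb) := by
  refine ⟨(pa * pd * pa) * pb * (pa * pd * pa)⁻¹,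
    B0_conj (mul_mem (mul_mem pa_mem pd_mem) pa_mem) pb_mem_B0, fun w => ?_⟩
  have : (pa * pd * pa)⁻¹ = pa * pd * pa := by simp [mul_assoc]
  rw [this]
  simp

/-- every element of the group is the section at `false` of an element with property `S0` -/
theorem S0_lift {g : Equiv.Perm (List Bool)} (hg : g ∈ Gr) :
    ∃ s, S0 s ∧ ∀ w, s (false :: w) = false :: g w := by
  have hmul : ∀ {x y : Equiv.Perm (List Bool)},
      (∃ s, S0 s ∧ ∀ w, s (false :: w) = false :: x w) →
      (∃ s, S0 s ∧ ∀ w, s (false :: w) = false :: y w) →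
      (∃ s, S0 s ∧ ∀ w, s (false :: w) = false :: (x * y) w) := by
    rintro x y ⟨s, hs, h1⟩ ⟨t, ht, h2⟩
    exact ⟨s * t, S0_mul hs ht, fun w => by simp [h1, h2]⟩
  have ha : ∃ s, S0 s ∧ ∀ w, s (false :: w) = false :: pa w := ⟨pc, S0_c, fun w => by simp⟩
  have hd : ∃ s, S0 s ∧ ∀ w, s (false :: w) = false :: pd w :=
    ⟨pa * pc * pa, S0_mul (S0_mul S0_a S0_c) S0_a, fun w => by simp⟩
  have hc : ∃ s, S0 s ∧ ∀ w, s (false :: w) = false :: pc w :=
    ⟨pa * (pb * pa * pb) * pc, S0_mul (S0_mul S0_a S0_bab) S0_c, fun w => by simp⟩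
  induction hg using Subgroup.closure_induction with
  | mem x hx =>
    simp only [Set.mem_insert_iff, Set.mem_singleton_iff] at hx
    rcases hx with rfl | rfl | rfl | rfl
    · exact ha
    · have : pb = pc * pd := by ext1 w; exact ((klein w).2.1).symm
      rw [this]
      exact hmul hc hd
    · exact hc
    · exact hd
  | one => exact ⟨pa * pa, S0_mul S0_a S0_a, fun w => by simp⟩
  | mul x y _ _ hx hy => exact hmul hx hy
  | inv x _ hx =>
    obtain ⟨s, hs, h⟩ := hx
    refine ⟨s⁻¹, S0_inv hs, fun w => ?_⟩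
    rw [Equiv.Perm.inv_eq_iff_eq, h, ai]

theorem S0_trans (u w : List Bool) (h : u.length = w.length) : ∃ s, S0 s ∧ s u = w := by
  rcases u with _ | ⟨x, u⟩
  · have : w = [] := List.length_eq_zero_iff.1 h.symm
    subst this
    exact ⟨pa, S0_a, rfl⟩
  · rcases w with _ | ⟨y, w⟩
    · simp at h
    · obtain ⟨g, hg, e⟩ := trans_level u w (by simpa using h)
      obtain ⟨s, hs, h'⟩ := S0_lift hg
      have key : ∃ s, S0 s ∧ s (false :: u) = false :: w := ⟨s, hs, by rw [h', e]⟩
      obtain ⟨s, hs, h1⟩ := key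
      cases x <;> cases y
      · exact ⟨s, hs, h1⟩
      · exact ⟨pa * s, S0_mul S0_a hs, by simp [h1]⟩
      · exact ⟨s * pa, S0_mul hs S0_a, by simp [h1]⟩
      · exact ⟨pa * s * pa, S0_mul (S0_mul S0_a hs) S0_a, by simp [h1]⟩

theorem B0_trans (x : Bool) (u w : List Bool) (h : u.length = w.length) :
    ∃ β ∈ B0, β (x :: u) = x :: w := by
  obtain ⟨s, ⟨β, hβ, h1⟩, h2⟩ := S0_trans u w h
  cases x
  · exact ⟨β, hβ, by rw [h1, h2]⟩
  · refine ⟨pa * β * pa⁻¹, B0_conj pa_mem hβ, ?_⟩
    simp [h1, h2]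

theorem len_pc (w : List Bool) : (pc w).length = w.length := (isAut_of_mem pc_mem w).1

/-- the stabilizer of a vertex of the right subtree is transitive on the levels of the left one -/
theorem stab_trans1 (w u u' : List Bool) (h1 : w.length = u.length) (h2 : u.length = u'.length) :
    ∃ g ∈ Gr, g (true :: w) = true :: w ∧ g (false :: u) = false :: u' := by
  rcases w with _ | ⟨y, w⟩
  · have e1 : u = [] := List.length_eq_zero_iff.1 h1.symm
    subst e1
    have e2 : u' = [] := List.length_eq_zero_iff.1 h2.symm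
    subst e2
    exact ⟨1, one_mem _, rfl, rfl⟩
  · rcases u with _ | ⟨z, u⟩
    · simp at h1
    · rcases u' with _ | ⟨z', u'⟩
      · simp at h2
      · have h3 : w.length = u.length := by simpa using h1
        have h4 : u.length = u'.length := by simpa using h2
        have case1 : ∃ g ∈ Gr, g (true :: y :: w) = true :: y :: w ∧
            g (false :: z' :: u) = false :: z' :: u' := by
          obtain ⟨β, hβ, e⟩ := B0_trans z' u u' h4
          exact ⟨d0 β, hβ, rfl, by rw [d0_f, e]⟩
        by_cases hz : z = z'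
        · subst hz
          exact case1
        · obtain ⟨w1, hw1⟩ : ∃ w1, pc (y :: w) = y :: w1 := by
            cases y
            · exact ⟨_, pc_f w⟩
            · exact ⟨_, pc_t w⟩
          have hl : w1.length = w.length := by
            have := len_pc (y :: w)
            rw [hw1] at this
            simpa using this
          obtain ⟨β, hβ, e⟩ := B0_trans y w1 w hl
          obtain ⟨g, hg, e1, e2⟩ := case1
          refine ⟨g * (d1 β * pb), mul_mem hg (mul_mem (d1_mem hβ) pb_mem), ?_, ?_⟩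
          · simp only [Equiv.Perm.mul_apply, pb_t, hw1, d1_t, e, e1]
          · have : pa (z :: u) = z' :: u := by
              cases z <;> cases z' <;> simp_all
            simp only [Equiv.Perm.mul_apply, pb_f, this, d1_f, e2]

theorem stab_trans2 (x : Bool) (w u u' : List Bool) (h1 : w.length = u.length)
    (h2 : u.length = u'.length) :
    ∃ g ∈ Gr, g (x :: w) = x :: w ∧ g ((!x) :: u) = (!x) :: u' := by
  obtain ⟨g, hg, e1, e2⟩ := stab_trans1 w u u' h1 h2
  cases x
  · refine ⟨pa * g * pa, mul_mem (mul_mem pa_mem hg) pa_mem, ?_, ?_⟩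
    · simp [e1]
    · simp [e2]
  · exact ⟨g, hg, e1, e2⟩

theorem stab_trans (v : List Bool) (x : Bool) (w u u' : List Bool) (h1 : w.length = u.length)
    (h2 : u.length = u'.length) :
    ∃ g ∈ Gr, g (v ++ x :: w) = v ++ x :: w ∧ g (v ++ (!x) :: u) = v ++ (!x) :: u' := by
  obtain ⟨g, hg, e1, e2⟩ := stab_trans2 x w u u' h1 h2
  obtain ⟨g', hg', h'⟩ := liftv v hg
  exact ⟨g', hg', by rw [h', e1], by rw [h', e2]⟩

/-! ### noncommuting elements with nontrivial squares in the rigid stabilizers -/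

theorem exists_pair (u : List Bool) : ∃ h1 ∈ KK, ∃ h2 ∈ KK,
    (∀ w, ¬ u <+: w → h1 w = w) ∧ (∀ w, ¬ u <+: w → h2 w = w) ∧
    h1 * h1 ≠ 1 ∧ h2 * h2 ≠ 1 ∧ (h1 * h2) * (h1 * h2) ≠ 1 ∧ h1 * h2 ≠ h2 * h1 := by
  have e1 : ∀ w, emb u tt (u ++ w) = u ++ tt w := fun w => emb_apply u w tt
  have e2 : ∀ w, emb (u ++ [false, false]) tt (u ++ (false :: false :: w)) =
      u ++ (false :: false :: tt w) := fun w => by
    have := emb_apply (u ++ [false, false]) w tt
    simpa using this
  have e3 : ∀ w, emb (u ++ [false, false]) tt (u ++ (true :: w)) = u ++ (true :: w) := fun w => by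
    apply emb_off
    rw [List.prefix_append_right_inj]
    simp
  have e4 : ∀ w, emb (u ++ [false, false]) tt (u ++ (false :: true :: w)) =
      u ++ (false :: true :: w) := fun w => by
    apply emb_off
    rw [List.prefix_append_right_inj]
    simp
  refine ⟨emb u tt, emb_mem tt_mem_KK, emb (u ++ [false, false]) tt, emb_mem tt_mem_KK,
    fun w hw => emb_off u w hw, fun w hw => emb_off _ w (fun h => hw ?_), ?_, ?_, ?_, ?_⟩
  · exact (List.prefix_append u _).trans h
  · intro h
    have := congrArg (fun g : Equiv.Perm (List Bool) => g (u ++ [false, false, false])) h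
    simp [e1, tt_f] at this
  · intro h
    have := congrArg (fun g : Equiv.Perm (List Bool) =>
      g (u ++ [false, false, false, false, false])) h
    simp [e2, tt_f] at this
  · intro h
    have := congrArg (fun g : Equiv.Perm (List Bool) => g (u ++ [true, false, false])) h
    simp [e1, e3, tt_t] at this
  · intro h
    have := congrArg (fun g : Equiv.Perm (List Bool) =>
      g (u ++ [false, false, false, false])) h
    simp [e1, e2, e4, tt_f] at this

end Pool.Agent.Helper180.Grig
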