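import Mathlib
import Pool.Agent.Helper180.Grig.Tr

/-! Rigid stabilizers in the Grigorchuk group. -/

namespace Pool.Agent.Helper180.Grig

/-- the action of an element of the group on the vertices -/
def ac (g : Gr) (w : List Bool) : List Bool := g.1 w

theorem ac_mul (g h : Gr) (w : List Bool) : ac (g * h) w = ac g (ac h w) := rfl
theorem ac_one (w : List Bool) : ac 1 w = w := rfl
theorem ac_inv_ac (g : Gr) (w : List Bool) : ac g⁻¹ (ac g w) = w := ia g.1 w
theorem ac_ac_inv (g : Gr) (w : List Bool) : ac g (ac g⁻¹ w) = w := ai g.1 w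
theorem ac_inj {g : Gr} {u w : List Bool} : ac g u = ac g w ↔ u = w := g.1.injective.eq_iff
theorem ac_len (g : Gr) (w : List Bool) : (ac g w).length = w.length := (isAut_of_mem g.2 w).1
theorem ac_pre (g : Gr) {u w : List Bool} (h : u <+: w) : ac g u <+: ac g w := by
  obtain ⟨r, rfl⟩ := h
  exact (isAut_of_mem g.2 u).2 r
theorem ac_pre_iff {g : Gr} {u w : List Bool} : ac g u <+: ac g w ↔ u <+: w :=
  ⟨fun h => by simpa [ac_inv_ac] using ac_pre g⁻¹ h, ac_pre g⟩
theorem ac_ext {g h : Gr} (H : ∀ w, ac g w = ac h w) : g = h := by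
  apply Subtype.ext
  ext1 w
  exact H w
theorem ac_inv_eq {g : Gr} {u w : List Bool} : ac g⁻¹ u = w ↔ u = ac g w := by
  constructor
  · rintro rfl; rw [ac_ac_inv]
  · rintro rfl; rw [ac_inv_ac]

theorem eq_of_pre {u v w : List Bool} (h : u.length = v.length) (hu : u <+: w) (hv : v <+: w) :
    u = v :=
  (List.prefix_of_prefix_length_le hu hv h.le).eq_of_length h

theorem trans_ac {u w : List Bool} (h : u.length = w.length) : ∃ g : Gr, ac g u = w := by
  obtain ⟨g, hg, e⟩ := trans_level u w h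
  exact ⟨⟨g, hg⟩, e⟩

theorem stab_ac (v : List Bool) (x : Bool) (w u u' : List Bool) (h1 : w.length = u.length)
    (h2 : u.length = u'.length) :
    ∃ g : Gr, ac g (v ++ x :: w) = v ++ x :: w ∧ ac g (v ++ (!x) :: u) = v ++ (!x) :: u' := by
  obtain ⟨g, hg, e1, e2⟩ := stab_trans v x w u u' h1 h2
  exact ⟨⟨g, hg⟩, e1, e2⟩

/-- the rigid stabilizer of a vertex -/
def Rist (v : List Bool) : Set Gr := {g | ∀ w, ac g w ≠ w → v <+: w}

theorem rist_off {v w : List Bool} {g : Gr} (hg : g ∈ Rist v) (h : ¬ v <+: w) : ac g w = w := by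
  by_contra h'
  exact h (hg w h')

theorem rist_off' {u v w : List Bool} {g : Gr} (hg : g ∈ Rist v) (hl : u.length = v.length)
    (hne : u ≠ v) (h : u <+: w) : ac g w = w :=
  rist_off hg fun h' => hne (eq_of_pre hl h h')

theorem rist_fix {v : List Bool} {g : Gr} (hg : g ∈ Rist v) : ac g v = v := by
  by_contra h
  have h1 : ac g (ac g v) ≠ ac g v := fun h' => h (ac_inj.1 h')
  have h2 := hg _ h1
  exact h (h2.eq_of_length (ac_len g v).symm).symm

theorem rist_pre {v w : List Bool} {g : Gr} (hg : g ∈ Rist v) (h : v <+: w) : v <+: ac g w := by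
  have := ac_pre g h
  rwa [rist_fix hg] at this

theorem rist_one (v : List Bool) : (1 : Gr) ∈ Rist v := fun _ h => absurd rfl h

theorem rist_inv {v : List Bool} {g : Gr} (hg : g ∈ Rist v) : g⁻¹ ∈ Rist v := by
  intro w h
  apply hg w
  intro h'
  exact h (ac_inv_eq.2 h'.symm)

theorem rist_mul {v : List Bool} {g h : Gr} (hg : g ∈ Rist v) (hh : h ∈ Rist v) :
    g * h ∈ Rist v := by
  intro w hw
  by_contra h'
  rw [ac_mul, rist_off hh h', rist_off hg h'] at hw
  exact hw rfl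

theorem rist_conj {v : List Bool} {g : Gr} (hg : g ∈ Rist v) (h : Gr) :
    h * g * h⁻¹ ∈ Rist (ac h v) := by
  intro w hw
  have h1 : ac g (ac h⁻¹ w) ≠ ac h⁻¹ w := by
    intro h'
    apply hw
    rw [ac_mul, ac_mul, h', ac_ac_inv]
  have h2 := ac_pre h (hg _ h1)
  rwa [ac_ac_inv] at h2

theorem rist_conj' {v : List Bool} {g : Gr} (hg : g ∈ Rist v) (h : Gr) :
    h⁻¹ * g * h ∈ Rist (ac h⁻¹ v) := by
  have := rist_conj hg h⁻¹
  rwa [inv_inv] at this

theorem rist_anti {u v : List Bool} (h : u <+: v) {g : Gr} (hg : g ∈ Rist v) : g ∈ Rist u :=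
  fun w hw => h.trans (hg w hw)

theorem comm_of {g h : Gr} (H : ∀ w, ac g w = w ∨ ac h w = w) : g * h = h * g := by
  apply ac_ext
  intro w
  rw [ac_mul, ac_mul]
  by_cases h1 : ac g w = w
  · rw [h1]
    by_cases h2 : ac h w = w
    · rw [h2, h1]
    · have h3 : ac h (ac h w) ≠ ac h w := fun h' => h2 (ac_inj.1 h')
      exact (H (ac h w)).resolve_right h3
  · have h2 : ac h w = w := (H w).resolve_left h1
    rw [h2]
    have h3 : ac g (ac g w) ≠ ac g w := fun h' => h1 (ac_inj.1 h')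
    exact ((H (ac g w)).resolve_left h3).symm

theorem rist_comm {u v : List Bool} (hl : u.length = v.length) (hne : u ≠ v) {g h : Gr}
    (hg : g ∈ Rist u) (hh : h ∈ Rist v) : g * h = h * g := by
  apply comm_of
  intro w
  by_cases h1 : u <+: w
  · exact Or.inr (rist_off' hh hl hne h1)
  · exact Or.inl (rist_off hg h1)

theorem exists_two (u : List Bool) : ∃ h1 ∈ Rist u, ∃ h2 ∈ Rist u,
    h1 * h1 ≠ 1 ∧ h2 * h2 ≠ 1 ∧ (h1 * h2) * (h1 * h2) ≠ 1 ∧ h1 * h2 ≠ h2 * h1 := by
  obtain ⟨h1, m1, h2, m2, r1, r2, s1, s2, s3, s4⟩ := exists_pair u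
  refine ⟨⟨h1, KK_le m1⟩, fun w hw => ?_, ⟨h2, KK_le m2⟩, fun w hw => ?_, ?_, ?_, ?_, ?_⟩
  · by_contra h; exact hw (r1 w h)
  · by_contra h; exact hw (r2 w h)
  · exact fun h => s1 (congrArg Subtype.val h)
  · exact fun h => s2 (congrArg Subtype.val h)
  · exact fun h => s3 (congrArg Subtype.val h)
  · exact fun h => s4 (congrArg Subtype.val h)

/-- every rigid stabilizer contains an element that moves a vertex below -/
theorem exists_moved (u : List Bool) : ∃ h ∈ Rist u, ∃ w, u <+: w ∧ ac h w ≠ w := by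
  obtain ⟨h, m, _, _, s, _⟩ := exists_two u
  by_contra H
  push Not at H
  apply s
  have : h = 1 := ac_ext fun w => by
    by_cases hw : u <+: w
    · exact H h m w hw
    · exact rist_off m hw
  rw [this, one_mul]

/-- Lemma A -/
theorem sq_of_comm {b h : Gr} {u : List Bool} (hb : ac b u ≠ u) (hh : h ∈ Rist u)
    (hc : (h⁻¹ * b * h) * b = b * (h⁻¹ * b * h)) : h * h = 1 := by
  have key : h⁻¹ * (b * h * b⁻¹) = (b⁻¹ * h⁻¹ * b) * h := by
    have := congrArg (fun x => b⁻¹ * x * b⁻¹) hc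
    simp only [mul_assoc, inv_mul_cancel_left, mul_inv_cancel, mul_one] at this
    simp only [mul_assoc]
    exact this.symm
  apply ac_ext
  intro w
  rw [ac_one, ac_mul]
  by_cases hw : u <+: w
  · have k : ac (h⁻¹ * (b * h * b⁻¹)) w = ac ((b⁻¹ * h⁻¹ * b) * h) w := by rw [key]
    have h1 : ac (b * h * b⁻¹) w = w :=
      rist_off' (rist_conj hh b) (ac_len b u).symm (Ne.symm hb) hw
    have h2 : ac (b⁻¹ * h⁻¹ * b) (ac h w) = ac h w :=
      rist_off' (rist_conj' (rist_inv hh) b) (ac_len _ u).symm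
        (fun h' => hb (ac_inv_eq.1 h'.symm).symm) (rist_pre hh hw)
    rw [ac_mul, h1, ac_mul, h2] at k
    rw [← k, ac_ac_inv]
  · rw [rist_off hh hw, rist_off hh hw]

/-- Lemma L -/
theorem fix_of_comm {b z : Gr} {u : List Bool} (hb : ac b u ≠ u)
    (hc : ∀ h ∈ Rist u, h * h ≠ 1 → z * (b⁻¹ * h⁻¹ * b * h) = (b⁻¹ * h⁻¹ * b * h) * z) :
    ac z u = u := by
  by_contra hz
  have hb' : u ≠ ac b⁻¹ u := fun h' => hb (ac_inv_eq.1 h'.symm).symm
  have hz' : u ≠ ac z⁻¹ u := fun h' => hz (ac_inv_eq.1 h'.symm).symm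
  -- the main computation
  have main : ∀ h ∈ Rist u, h * h ≠ 1 → ∀ w, u <+: w →
      ac h w = ac ((z * b⁻¹) * h⁻¹ * (z * b⁻¹)⁻¹) w := by
    intro h hh hs w hw
    have k := congrArg (fun x => ac x (ac z⁻¹ w)) (hc h hh hs)
    simp only [ac_mul, ac_ac_inv] at k
    have e1 : ac h (ac z⁻¹ w) = ac z⁻¹ w :=
      rist_off' hh (ac_len _ u) (Ne.symm hz') (ac_pre z⁻¹ hw)
    have e2 : ac b⁻¹ (ac h⁻¹ (ac b (ac h w))) = ac h w := by
      have := rist_off' (rist_conj' (rist_inv hh) b) (ac_len _ u).symm hb' (rist_pre hh hw)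
      simpa [ac_mul] using this
    rw [e1, e2] at k
    rw [← k]
    have e3 : (z * b⁻¹) * h⁻¹ * (z * b⁻¹)⁻¹ = z * (b⁻¹ * (h⁻¹ * (b * z⁻¹))) := by group
    rw [e3]
    simp only [ac_mul]
  obtain ⟨h1, m1, h2, m2, s1, s2, s3, s4⟩ := exists_two u
  apply s4
  apply ac_ext
  intro w
  by_cases hw : u <+: w
  · rw [main (h1 * h2) (rist_mul m1 m2) s3 w hw, ac_mul h2 h1 w,
      main h2 m2 s2 _ (rist_pre m1 hw), main h1 m1 s1 w hw, ← ac_mul]
    congr 1
    group
  · rw [ac_mul, ac_mul, rist_off m1 hw, rist_off m2 hw, rist_off m1 hw]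

/-- Lemma S1: the centralizer of a rigid stabilizer -/
theorem fix_of_centr {g : Gr} {v : List Bool} (hg : ∀ h ∈ Rist v, g * h = h * g) {w : List Bool}
    (hw : v <+: w) : ac g w = w := by
  by_contra hne
  obtain ⟨h, mh, w', hw', hm⟩ := exists_moved w
  have h1 := hg h (rist_anti hw mh)
  have h2 : g * h * g⁻¹ = h := by rw [h1, mul_inv_cancel_right]
  have h3 := rist_conj mh g
  rw [h2] at h3
  exact hm (rist_off' h3 (ac_len g w).symm (Ne.symm hne) hw')

theorem centr_of_fix {g : Gr} {v : List Bool} (hg : ∀ w, v <+: w → ac g w = w) {h : Gr}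
    (hh : h ∈ Rist v) : g * h = h * g := by
  apply comm_of
  intro w
  by_cases hw : v <+: w
  · exact Or.inl (hg w hw)
  · exact Or.inr (rist_off hh hw)

end Pool.Agent.Helper180.Grig
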