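import Mathlib
import Pool.Agent.Helper180.Grig.Rist

/-! First-order characterisation of the rigid stabilizers. -/

namespace Pool.Agent.Helper180.Grig

theorem diverge : ∀ u w : List Bool, u.length = w.length → u ≠ w →
    ∃ v x s s', u = v ++ x :: s ∧ w = v ++ (!x) :: s'
  | [], [], _, h => absurd rfl h
  | [], _ :: _, h, _ => by simp at h
  | _ :: _, [], h, _ => by simp at h
  | x :: u, y :: w, hl, hne => by
    by_cases hxy : x = y
    · subst hxy
      obtain ⟨v, z, s, s', h1, h2⟩ := diverge u w (by simpa using hl)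
        (fun h => hne (by rw [h]))
      exact ⟨x :: v, z, s, s', by simp [h1], by simp [h2]⟩
    · refine ⟨[], x, u, w, rfl, ?_⟩
      cases x <;> cases y <;> simp_all

theorem pre_of_both {p v s s' : List Bool} (h1 : p <+: v ++ false :: s)
    (h2 : p <+: v ++ true :: s') : p <+: v := by
  rcases Nat.lt_or_ge v.length p.length with hl | hl
  · exfalso
    have e1 : v ++ [false] <+: v ++ false :: s := ⟨s, by simp⟩
    have e2 : v ++ [true] <+: v ++ true :: s' := ⟨s', by simp⟩
    have f1 := List.prefix_of_prefix_length_le e1 h1 (by simp; omega)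
    have f2 := List.prefix_of_prefix_length_le e2 h2 (by simp; omega)
    have := eq_of_pre (by simp) f1 f2
    simp at this
  · exact List.prefix_of_prefix_length_le h1 (List.prefix_append _ _) hl

theorem exists_ext {v : List Bool} {m : ℕ} (h : v.length ≤ m) :
    ∃ w, v <+: w ∧ w.length = m :=
  ⟨v ++ List.replicate (m - v.length) false, List.prefix_append _ _, by simp; omega⟩

section BlockSec

variable {M : Set (List Bool)}
  (hdesc : ∀ w ∈ M, ∀ w', w <+: w' → w' ∈ M)
  (hinv : ∀ w ∈ M, ∀ g : Gr, ac g w ∈ M → ∀ w', w' ∈ M ↔ ac g w' ∈ M)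
  (htwo : ∀ w ∈ M, ∃ w' ∈ M, w' ≠ w ∧ w'.length = w.length)
include hinv htwo

theorem block_level (m : ℕ) (hm : ∃ w ∈ M, w.length = m) :
    ∃ v : List Bool, v.length < m ∧ ∀ w, w.length = m → (w ∈ M ↔ v <+: w) := by
  classical
  let P : List Bool → Prop := fun v => ∃ x s s', (v ++ x :: s).length = m ∧
    (v ++ (!x) :: s').length = m ∧ v ++ x :: s ∈ M ∧ v ++ (!x) :: s' ∈ M
  have hP : ∀ u ∈ M, ∀ w ∈ M, u.length = m → w.length = m → u ≠ w →
      ∃ v, P v ∧ v <+: u ∧ v <+: w := by
    intro u hu w hw hum hwm hne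
    obtain ⟨v, x, s, s', h1, h2⟩ := diverge u w (hum.trans hwm.symm) hne
    subst h1 h2
    exact ⟨v, ⟨x, s, s', hum, hwm, hu, hw⟩, List.prefix_append _ _, List.prefix_append _ _⟩
  have hex : ∃ k, ∃ v, v.length = k ∧ P v := by
    obtain ⟨w, hw, hwm⟩ := hm
    obtain ⟨w', hw', hne, hl⟩ := htwo w hw
    obtain ⟨v, hv, _⟩ := hP w' hw' w hw (hl.trans hwm) hwm hne
    exact ⟨_, v, rfl, hv⟩
  obtain ⟨v, hvk, x, s, s', l1, l2, m1, m2⟩ := Nat.find_spec hex
  have hmin : ∀ v', P v' → v.length ≤ v'.length := by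
    intro v' hv'
    rw [hvk]
    exact Nat.find_min' hex ⟨v', rfl, hv'⟩
  refine ⟨v, by simp at l1; omega, fun w hwm => ⟨fun hw => ?_, fun hw => ?_⟩⟩
  · by_contra hvw
    have hne : w ≠ v ++ x :: s := by
      rintro rfl
      exact hvw (List.prefix_append _ _)
    obtain ⟨v', hv', p1, p2⟩ := hP w hw _ m1 hwm l1 hne
    exact hvw ((List.prefix_of_prefix_length_le (List.prefix_append _ _) p2 (hmin v' hv')).trans p1)
  · obtain ⟨r, rfl⟩ := hw
    rcases r with _ | ⟨y, t⟩
    · simp at l1 hwm; omega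
    · have k1 : s.length = t.length := by simp at l1 hwm; omega
      have k2 : s'.length = s.length := by simp at l1 l2; omega
      by_cases hy : y = x
      · subst hy
        obtain ⟨g, e1, e2⟩ := stab_ac v (!y) s' s t k2 k1
        rw [Bool.not_not] at e2
        have := (hinv _ m2 g (by rw [e1]; exact m2) _).1 m1
        rwa [e2] at this
      · have hy' : y = !x := by cases x <;> cases y <;> simp_all
        subst hy'
        obtain ⟨g, e1, e2⟩ := stab_ac v x s s' t k2.symm (k2.trans k1)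
        have := (hinv _ m1 g (by rw [e1]; exact m1) _).1 m2
        rwa [e2] at this

include hdesc

theorem block (hne : M.Nonempty) : ∃ (v : List Bool) (n : ℕ), (∀ w ∈ M, v <+: w) ∧
    ∀ w, v <+: w → n ≤ w.length → w ∈ M := by
  obtain ⟨w0, hw0⟩ := hne
  obtain ⟨v, hvn, hv⟩ := block_level hinv htwo w0.length ⟨w0, hw0, rfl⟩
  have key : ∀ m, w0.length ≤ m → ∀ w, w.length = m → (w ∈ M ↔ v <+: w) := by
    intro m hm
    obtain ⟨w1, hw1, hl1⟩ := exists_ext hm
    obtain ⟨v', hvm, hv'⟩ := block_level hinv htwo m ⟨w1, hdesc _ hw0 _ hw1, hl1⟩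
    have hM : ∀ w, v <+: w → w.length = m → w ∈ M := by
      intro w hw hwm
      have h1 : w.take w0.length ∈ M := by
        rw [hv _ (by simp; omega)]
        exact List.prefix_of_prefix_length_le hw (List.take_prefix _ _) (by simp; omega)
      exact hdesc _ h1 _ (List.take_prefix _ _)
    have hle : v' <+: v := by
      obtain ⟨wf, p1, q1⟩ := exists_ext (v := v ++ [false]) (m := m) (by simp; omega)
      obtain ⟨wt, p2, q2⟩ := exists_ext (v := v ++ [true]) (m := m) (by simp; omega)
      have a1 := (hv' wf q1).1 (hM wf ((List.prefix_append _ _).trans p1) q1)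
      have a2 := (hv' wt q2).1 (hM wt ((List.prefix_append _ _).trans p2) q2)
      obtain ⟨r1, rfl⟩ := p1
      obtain ⟨r2, rfl⟩ := p2
      rw [List.append_assoc] at a1 a2
      exact pre_of_both a1 a2
    have heq : v' = v := by
      obtain ⟨r, hr⟩ := hle
      rcases r with _ | ⟨y, r⟩
      · simpa using hr
      · exfalso
        obtain ⟨w, p1, q1⟩ := exists_ext (v := v) (m := m) (by omega)
        obtain ⟨w', p2, q2⟩ := exists_ext (v := v' ++ [!y]) (m := m) (by simp; omega)
        obtain ⟨g, hg⟩ := trans_ac (q1.trans q2.symm)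
        have m1 : w ∈ M := hM w p1 q1
        have m2 : w' ∈ M := (hv' w' q2).2 ((List.prefix_append _ _).trans p2)
        have h1 : w.take w0.length ∈ M := by
          rw [hv _ (by simp; omega)]
          exact List.prefix_of_prefix_length_le p1 (List.take_prefix _ _) (by simp; omega)
        have h2 := (hinv w m1 g (by rw [hg]; exact m2) _).1 h1
        have h3 := (hv _ (by rw [ac_len]; simp; omega)).1 h2
        have h4 := h3.trans (ac_pre g (List.take_prefix w0.length w))
        rw [hg] at h4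
        have h5 : v' ++ [y] <+: w' := by
          refine List.IsPrefix.trans ?_ h4
          rw [← hr]
          exact ⟨r, by simp⟩
        have := eq_of_pre (by simp) h5 p2
        simp at this
    subst heq
    exact hv'
  refine ⟨v, w0.length, fun w hw => ?_, fun w hw hl => (key _ hl w rfl).2 hw⟩
  rcases Nat.lt_or_ge w.length w0.length with hl | hl
  · obtain ⟨wf, p1, q1⟩ := exists_ext (v := w ++ [false]) (m := w0.length) (by simp; omega)
    obtain ⟨wt, p2, q2⟩ := exists_ext (v := w ++ [true]) (m := w0.length) (by simp; omega)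
    have a1 := (hv wf q1).1 (hdesc _ hw _ ((List.prefix_append _ _).trans p1))
    have a2 := (hv wt q2).1 (hdesc _ hw _ ((List.prefix_append _ _).trans p2))
    obtain ⟨r1, rfl⟩ := p1
    obtain ⟨r2, rfl⟩ := p2
    rw [List.append_assoc] at a1 a2
    exact pre_of_both a1 a2
  · exact (key _ hl w rfl).1 hw

end BlockSec

/-- the three conditions that characterise the rigid stabilizers of vertices -/
def IsBlk (B : Set Gr) : Prop :=
  (∃ y, y ∈ B ∧ y ≠ 1) ∧
  (∀ g : Gr, (∀ y, y ∈ B ↔ g⁻¹ * y * g ∈ B) ∨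
    (∀ y, y ∈ B → ∀ y', y' ∈ B → (g⁻¹ * y * g) * y' = y' * (g⁻¹ * y * g))) ∧
  (∀ y, (∀ g : Gr, ¬ (∀ y', y' ∈ B ↔ g⁻¹ * y' * g ∈ B) →
    ∀ y', y' ∈ B → y * (g⁻¹ * y' * g) = (g⁻¹ * y' * g) * y) → y ∈ B)

theorem eq_rist_of_isBlk {B : Set Gr} (hmul : ∀ x ∈ B, ∀ y ∈ B, x * y ∈ B)
    (hinvB : ∀ x ∈ B, x⁻¹ ∈ B) (h : IsBlk B) : ∃ v, B = Rist v := by
  obtain ⟨⟨y0, hy0, hy1⟩, h2, h3⟩ := h
  let M : Set (List Bool) := {w | ∃ b ∈ B, ac b w ≠ w}
  have hdesc : ∀ w ∈ M, ∀ w', w <+: w' → w' ∈ M := by
    rintro w ⟨b, hb, hw⟩ w' hww'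
    refine ⟨b, hb, fun h => hw ?_⟩
    have := ac_pre b hww'
    rw [h] at this
    exact eq_of_pre (ac_len b w) this hww'
  have hnorm : ∀ w ∈ M, ∀ g : Gr, ac g w ∈ M → ∀ y, y ∈ B ↔ g⁻¹ * y * g ∈ B := by
    rintro w ⟨b, hb, hw⟩ g ⟨b1, hb1, hw1⟩
    rcases h2 g with hg | hg
    · exact hg
    · exfalso
      have hz : ac (g⁻¹ * b1 * g) w ≠ w := by
        intro h
        apply hw1
        rw [ac_mul, ac_mul, ac_inv_eq] at h
        exact h
      apply hz
      refine fix_of_comm hw fun h hh hs => ?_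
      have hbh : h⁻¹ * b * h ∈ B := by
        rcases h2 h with hc | hc
        · exact (hc b).1 hb
        · exact absurd (sq_of_comm hw hh (hc b hb b hb)) hs
      have e : b⁻¹ * h⁻¹ * b * h = b⁻¹ * (h⁻¹ * b * h) := by group
      rw [e]
      exact hg b1 hb1 _ (hmul _ (hinvB b hb) _ hbh)
  have hinv : ∀ w ∈ M, ∀ g : Gr, ac g w ∈ M → ∀ w', w' ∈ M ↔ ac g w' ∈ M := by
    intro w hw g hg w'
    have hn := hnorm w hw g hg
    constructor
    · rintro ⟨y, hy, hyw⟩
      refine ⟨g * y * g⁻¹, ?_, ?_⟩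
      · rw [hn]
        have : g⁻¹ * (g * y * g⁻¹) * g = y := by group
        rwa [this]
      · rw [ac_mul, ac_mul, ac_inv_ac]
        exact fun h => hyw (ac_inj.1 h)
    · rintro ⟨y, hy, hyw⟩
      refine ⟨g⁻¹ * y * g, (hn y).1 hy, ?_⟩
      rw [ac_mul, ac_mul]
      exact fun h => hyw (ac_inv_eq.1 h)
  have htwo : ∀ w ∈ M, ∃ w' ∈ M, w' ≠ w ∧ w'.length = w.length := by
    rintro w ⟨b, hb, hw⟩
    exact ⟨ac b w, ⟨b, hb, fun h => hw (ac_inj.1 h)⟩, hw, ac_len b w⟩
  have hne : M.Nonempty := by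
    by_contra hM
    apply hy1
    apply ac_ext
    intro w
    by_contra hw
    exact hM ⟨w, y0, hy0, hw⟩
  obtain ⟨v, n, hv1, hv2⟩ := block hdesc hinv htwo hne
  have hsub : ∀ y ∈ B, y ∈ Rist v := fun y hy w hw => hv1 w ⟨y, hy, hw⟩
  refine ⟨v, Set.ext fun y => ⟨hsub y, fun hy => ?_⟩⟩
  apply h3
  intro g hg y' hy'
  have hgv : ac g⁻¹ v ≠ v := by
    intro h
    have hgv : ac g v = v := (ac_inv_eq.1 h).symm
    apply hg
    obtain ⟨w, p, q⟩ := exists_ext (v := v) (m := max v.length n) (le_max_left _ _)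
    refine hnorm w (hv2 w p (by omega)) g (hv2 _ ?_ (by rw [ac_len]; omega))
    have := ac_pre g p
    rwa [hgv] at this
  exact rist_comm (ac_len g⁻¹ v).symm (Ne.symm hgv) hy (rist_conj' (hsub y' hy') g)

theorem isBlk_rist (v : List Bool) : IsBlk (Rist v) := by
  refine ⟨?_, ?_, ?_⟩
  · obtain ⟨h, hh, w, _, hw⟩ := exists_moved v
    exact ⟨h, hh, fun e => hw (by rw [e, ac_one])⟩
  · intro g
    by_cases hg : ac g v = v
    · left
      have hg' : ac g⁻¹ v = v := ac_inv_eq.2 hg.symm
      intro y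
      constructor
      · intro hy
        have := rist_conj' hy g
        rwa [hg'] at this
      · intro hy
        have := rist_conj hy g
        rw [hg] at this
        have e : g * (g⁻¹ * y * g) * g⁻¹ = y := by group
        rwa [e] at this
    · right
      intro y hy y' hy'
      have hg' : ac g⁻¹ v ≠ v := fun h => hg (ac_inv_eq.1 h).symm
      exact rist_comm (ac_len g⁻¹ v) hg' (rist_conj' hy g) hy'
  · intro y hy
    have key : ∀ u : List Bool, u.length = v.length → u ≠ v → ∀ w, u <+: w → ac y w = w := by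
      intro u hl hne w hw
      obtain ⟨g, hg⟩ := trans_ac hl
      have hg' : ac g⁻¹ v = u := ac_inv_eq.2 hg.symm
      refine fix_of_centr (v := u) (fun h hh => ?_) hw
      have h1 : ¬ (∀ y', y' ∈ Rist v ↔ g⁻¹ * y' * g ∈ Rist v) := by
        intro H
        obtain ⟨k, hk, w0, hw0, hkw⟩ := exists_moved v
        have h2 := (H k).1 hk
        have h3 : v <+: ac g⁻¹ w0 := by
          apply h2
          rw [ac_mul, ac_mul, ac_ac_inv]
          exact fun h => hkw (ac_inj.1 h)
        have h4 := ac_pre g⁻¹ hw0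
        rw [hg'] at h4
        exact hne (eq_of_pre hl h4 h3)
      have h2 := hy g h1 (g * h * g⁻¹) (by
        have := rist_conj hh g
        rwa [hg] at this)
      have e : g⁻¹ * (g * h * g⁻¹) * g = h := by group
      rwa [e] at h2
    intro w hw
    by_contra hvw
    rcases Nat.lt_or_ge w.length v.length with hl | hl
    · obtain ⟨wf, p1, q1⟩ := exists_ext (v := w ++ [false]) (m := v.length) (by simp; omega)
      obtain ⟨wt, p2, q2⟩ := exists_ext (v := w ++ [true]) (m := v.length) (by simp; omega)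
      have hmv : ∀ w', w <+: w' → ac y w' ≠ w' := by
        intro w' hww' h
        have := ac_pre y hww'
        rw [h] at this
        exact hw (eq_of_pre (ac_len y w) this hww')
      by_cases hwf : wf = v
      · have hwt : wt ≠ v := by
          rintro rfl
          rw [hwf] at p1
          have := eq_of_pre (by simp) p1 p2
          simp at this
        exact hmv wt ((List.prefix_append _ _).trans p2) (key wt q2 hwt wt (List.prefix_refl _))
      · exact hmv wf ((List.prefix_append _ _).trans p1) (key wf q1 hwf wf (List.prefix_refl _))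
    · have h1 : (w.take v.length).length = v.length := by simp; omega
      have h2 : w.take v.length ≠ v := fun h => hvw (h ▸ List.take_prefix _ _)
      exact hw (key _ h1 h2 w (List.take_prefix _ _))

end Pool.Agent.Helper180.Grig
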