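import Mathlib
import Pool.Agent.Helper180.Grig.Block

/-! Group elements coding vertices. -/

namespace Pool.Agent.Helper180.Grig

/-- elements commuting with `x` and with the conjugates of `x` that do not commute with `x` -/
def Cp (x : Gr) : Set Gr :=
  {z | z * x = x * z ∧ ∀ g : Gr, ¬ ((g⁻¹ * x * g) * x = x * (g⁻¹ * x * g)) →
    z * (g⁻¹ * x * g) = (g⁻¹ * x * g) * z}

/-- the centralizer of `Cp x` -/
def Bs (x : Gr) : Set Gr := {y | ∀ z, z ∈ Cp x → y * z = z * y}

theorem Bs_mul {x y z : Gr} (hy : y ∈ Bs x) (hz : z ∈ Bs x) : y * z ∈ Bs x := by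
  intro t ht
  rw [mul_assoc, hz t ht, ← mul_assoc, hy t ht, mul_assoc]

theorem Bs_inv {x y : Gr} (hy : y ∈ Bs x) : y⁻¹ ∈ Bs x := by
  intro t ht
  have := hy t ht
  rw [inv_mul_eq_iff_eq_mul, ← mul_assoc, this, mul_inv_cancel_right]

/-- the element `x` codes a vertex -/
def Vert (x : Gr) : Prop := IsBlk (Bs x)

/-- the element `x` codes the vertex `v` -/
def Code (x : Gr) (v : List Bool) : Prop := Bs x = Rist v

theorem vert_iff {x : Gr} : Vert x ↔ ∃ v, Code x v := by
  constructor
  · exact eq_rist_of_isBlk (fun _ hx _ hy => Bs_mul hx hy) (fun _ hx => Bs_inv hx)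
  · rintro ⟨v, hv⟩
    unfold Vert
    rw [hv]
    exact isBlk_rist v

theorem tt_moves (p q : Bool) (r : List Bool) : tt (p :: q :: r) ≠ p :: q :: r := by
  cases p <;> cases q <;> simp [tt_f, tt_t]

theorem exists_code (v : List Bool) : ∃ x, Code x v := by
  let x : Gr := ⟨emb v tt, KK_le (emb_mem tt_mem_KK)⟩
  have hx : ∀ w, ac x (v ++ w) = v ++ tt w := fun w => emb_apply v w tt
  have hxR : x ∈ Rist v := fun w hw => by
    by_contra h
    exact hw (emb_off v w h)
  refine ⟨x, ?_⟩
  have hCp : ∀ z, z ∈ Cp x ↔ ∀ w, v <+: w → ac z w = w := by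
    intro z
    constructor
    · rintro ⟨hz1, hz2⟩
      have key : ∀ w, ac x w ≠ w → ac z w = w := by
        intro w hw
        refine fix_of_comm hw fun h hh hs => ?_
        have h1 := hz2 h (fun hc => hs (sq_of_comm hw hh hc))
        have e : x⁻¹ * h⁻¹ * x * h = x⁻¹ * (h⁻¹ * x * h) := by group
        rw [e]
        have h3 : z * x⁻¹ = x⁻¹ * z := by
          rw [eq_inv_mul_iff_mul_eq, ← mul_assoc, ← hz1, mul_inv_cancel_right]
        rw [← mul_assoc z, h3, mul_assoc, h1, ← mul_assoc]
      rintro w ⟨r, rfl⟩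
      have h1 : ac z (v ++ (r ++ [false, false])) = v ++ (r ++ [false, false]) := by
        apply key
        rw [hx]
        intro h
        have h2 := List.append_cancel_left h
        rcases r with _ | ⟨p, _ | ⟨q, r⟩⟩
        · exact tt_moves _ _ _ h2
        · exact tt_moves _ _ _ h2
        · exact tt_moves _ _ _ h2
      have h2 : v ++ r <+: v ++ (r ++ [false, false]) := ⟨[false, false], by simp⟩
      have h3 := ac_pre z h2
      rw [h1] at h3
      exact eq_of_pre (ac_len z _) h3 h2
    · intro hz
      refine ⟨centr_of_fix hz hxR, fun g hg => ?_⟩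
      have h1 : ac g⁻¹ v = v := by
        by_contra hne
        exact hg (rist_comm (ac_len _ _) hne (rist_conj' hxR g) hxR)
      have h2 := rist_conj' hxR g
      rw [h1] at h2
      exact centr_of_fix hz h2
  apply Set.ext
  intro y
  constructor
  · intro hy
    have hy' : ∀ z : Gr, (∀ w, v <+: w → ac z w = w) → y * z = z * y :=
      fun z hz => hy z ((hCp z).2 hz)
    have key : ∀ w, ¬ v <+: w → ¬ w <+: v → ac y w = w := by
      intro w h1 h2
      refine fix_of_centr (v := w) (fun h hh => hy' h fun w' hw' => ?_) (List.prefix_refl _)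
      by_contra hm
      have h3 := hh w' hm
      rcases List.prefix_or_prefix_of_prefix hw' h3 with h4 | h4
      · exact h1 h4
      · exact h2 h4
    intro w hw
    by_contra hvw
    by_cases hwv : w <+: v
    · obtain ⟨r, rfl⟩ := hwv
      rcases r with _ | ⟨b, r⟩
      · simp at hvw
      · have h1 : ac y (w ++ [!b]) = w ++ [!b] := by
          apply key
          · rw [List.prefix_append_right_inj]
            rintro ⟨s, hs⟩
            simp at hs
          · rw [List.prefix_append_right_inj]
            rintro ⟨s, hs⟩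
            simp at hs
        have h2 : w <+: w ++ [!b] := List.prefix_append _ _
        have h3 := ac_pre y h2
        rw [h1] at h3
        exact hw (eq_of_pre (ac_len y _) h3 h2)
    · exact hw (key w hvw hwv)
  · intro hy z hz
    exact (centr_of_fix ((hCp z).1 hz) hy).symm

/-! ### comparison of vertices -/

theorem rist_sub_iff {v w : List Bool} : (∀ z, z ∈ Rist w → z ∈ Rist v) ↔ v <+: w := by
  constructor
  · intro h
    obtain ⟨h1, m1, w1, ⟨r1, hr1⟩, n1⟩ := exists_moved (w ++ [false])
    obtain ⟨h2, m2, w2, ⟨r2, hr2⟩, n2⟩ := exists_moved (w ++ [true])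
    have a1 := h h1 (rist_anti (List.prefix_append _ _) m1) w1 n1
    have a2 := h h2 (rist_anti (List.prefix_append _ _) m2) w2 n2
    rw [← hr1, List.append_assoc] at a1
    rw [← hr2, List.append_assoc] at a2
    exact pre_of_both a1 a2
  · exact fun h z hz => rist_anti h hz

theorem rist_inj {v w : List Bool} (h : Rist v = Rist w) : v = w := by
  have h1 : v <+: w := rist_sub_iff.1 (fun z hz => by rwa [h])
  have h2 : w <+: v := rist_sub_iff.1 (fun z hz => by rwa [← h])
  exact h1.eq_of_length (Nat.le_antisymm h1.length_le h2.length_le)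

theorem code_unique {x : Gr} {v w : List Bool} (h : Code x v) (h' : Code x w) : v = w :=
  rist_inj (h.symm.trans h')

theorem conj_mem_rist {g z : Gr} {u : List Bool} : g⁻¹ * z * g ∈ Rist u ↔ z ∈ Rist (ac g u) := by
  constructor
  · intro h
    have := rist_conj h g
    have e : g * (g⁻¹ * z * g) * g⁻¹ = z := by group
    rwa [e] at this
  · intro h
    have := rist_conj' h g
    rwa [ac_inv_ac] at this

/-- the vertex coded by `x` is a prefix of that coded by `y` -/
def Pre (x y : Gr) : Prop := ∀ z, z ∈ Bs y → z ∈ Bs x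

theorem pre_iff {x y : Gr} {v w : List Bool} (hx : Code x v) (hy : Code y w) :
    Pre x y ↔ v <+: w := by
  unfold Pre
  rw [hx, hy]
  exact rist_sub_iff

/-- the vertex coded by `x` has at most the length of that coded by `y` -/
def Lle (x y : Gr) : Prop := ∃ g : Gr, ∀ z, z ∈ Bs y → g⁻¹ * z * g ∈ Bs x

theorem lle_iff {x y : Gr} {v w : List Bool} (hx : Code x v) (hy : Code y w) :
    Lle x y ↔ v.length ≤ w.length := by
  unfold Lle
  rw [hx, hy]
  simp only [conj_mem_rist, rist_sub_iff]
  constructor
  · rintro ⟨g, hg⟩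
    have := hg.length_le
    rwa [ac_len] at this
  · intro h
    obtain ⟨g, hg⟩ := trans_ac (u := v) (w := w.take v.length) (by simp; omega)
    exact ⟨g, by rw [hg]; exact List.take_prefix _ _⟩

/-- `f` moves the vertex coded by `x` -/
def Mv (f x : Gr) : Prop := ¬ (∀ z, z ∈ Bs x ↔ f⁻¹ * z * f ∈ Bs x)

theorem mv_iff {f x : Gr} {v : List Bool} (hx : Code x v) : Mv f x ↔ ac f v ≠ v := by
  unfold Mv
  rw [hx]
  simp only [conj_mem_rist]
  rw [not_iff_not]
  constructor
  · intro h
    exact (rist_inj (Set.ext h)).symm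
  · intro h z
    rw [h]

end Pool.Agent.Helper180.Grig
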