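import Mathlib
import Pool.Agent.Helper180.Grig.Code

/-! Coding finite functions by group elements. -/

namespace Pool.Agent.Helper180.Grig

/-- the relation on the naturals coded by the group element `f` and the vertex `p` -/
def RelN (f : Gr) (p : List Bool) (i j : ℕ) : Prop :=
  ∃ v : List Bool, v.length = j ∧ ac f v ≠ v ∧ (∀ q, q <+: v → ac f q ≠ q → v <+: q) ∧
    ∃ m : List Bool, m.length = i ∧ m <+: v ∧ m <+: p ∧ ∀ q, q <+: v → q <+: p → q <+: m

/-- the vertices used for coding -/
def Vt (h : ℕ → ℕ) (i : ℕ) : List Bool :=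
  List.replicate i false ++ true :: List.replicate (h i - i - 3) false

theorem rep_get {n i : ℕ} (h : i < n) {r w : List Bool}
    (hw : List.replicate n false ++ r <+: w) : w[i]? = some false := by
  obtain ⟨s, rfl⟩ := hw
  rw [List.append_assoc, List.getElem?_append_left (by simpa using h)]
  simp [h]

theorem rep_get' {n : ℕ} {r w : List Bool}
    (hw : List.replicate n false ++ true :: r <+: w) : w[n]? = some true := by
  obtain ⟨s, rfl⟩ := hw
  rw [List.append_assoc, List.getElem?_append_right (by simp)]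
  simp

theorem Vt_disj {h : ℕ → ℕ} {i j : ℕ} {w : List Bool} (hi : Vt h i <+: w) (hj : Vt h j <+: w) :
    i = j := by
  rcases lt_trichotomy i j with hl | hl | hl
  · have h1 := rep_get' hi
    have h2 := rep_get hl hj
    rw [h1] at h2
    simp at h2
  · exact hl
  · have h1 := rep_get' hj
    have h2 := rep_get hl hi
    rw [h1] at h2
    simp at h2

theorem exists_F (h : ℕ → ℕ) (n : ℕ) : ∃ F : Gr, (∀ k < n, ∀ s, ac F (Vt h k ++ s) = Vt h k ++ tt s) ∧
    ∀ w, (∀ k < n, ¬ Vt h k <+: w) → ac F w = w := by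
  induction n with
  | zero => exact ⟨1, fun k hk => absurd hk (Nat.not_lt_zero k), fun w _ => rfl⟩
  | succ n ih =>
    obtain ⟨F, h1, h2⟩ := ih
    let E : Gr := ⟨emb (Vt h n) tt, KK_le (emb_mem tt_mem_KK)⟩
    have e1 : ∀ s, ac E (Vt h n ++ s) = Vt h n ++ tt s := fun s => emb_apply _ _ _
    have e2 : ∀ w, ¬ Vt h n <+: w → ac E w = w := fun w hw => emb_off _ _ hw
    refine ⟨F * E, ?_, ?_⟩
    · intro k hk s
      rcases Nat.lt_succ_iff_lt_or_eq.1 hk with hk | rfl
      · rw [ac_mul, e2, h1 k hk]
        intro hn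
        have := Vt_disj hn (List.prefix_append (Vt h k) s)
        omega
      · rw [ac_mul, e1, h2]
        intro j hj hn
        have := Vt_disj hn (List.prefix_append (Vt h k) _)
        omega
    · intro w hw
      rw [ac_mul, e2 w (hw n (Nat.lt_succ_self n)), h2 w fun k hk => hw k (Nat.lt_succ_of_lt hk)]

theorem tt_len_two {s : List Bool} (h : tt s ≠ s) : ∃ a b r, s = a :: b :: r := by
  rcases s with _ | ⟨a, _ | ⟨b, r⟩⟩
  · exact absurd (by simp [tt]) h
  · exfalso
    apply h
    cases a <;> simp [tt]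
  · exact ⟨a, b, r, rfl⟩

theorem exists_rel (h : ℕ → ℕ) (N : ℕ) (hN : ∀ i ≤ N, i + 3 ≤ h i) :
    ∃ (f : Gr) (p : List Bool), ∀ i j, RelN f p i j ↔ (i ≤ N ∧ j = h i) := by
  obtain ⟨F, h1, h2⟩ := exists_F h (N + 1)
  have hlen : ∀ i ≤ N, (Vt h i).length + 2 = h i := by
    intro i hi
    have := hN i hi
    simp [Vt]
    omega
  -- the moved vertices
  have hmv : ∀ v, ac F v ≠ v ↔ ∃ k ≤ N, ∃ a b r, v = Vt h k ++ a :: b :: r := by
    intro v
    constructor
    · intro hv
      by_contra H
      apply hv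
      by_cases hk : ∀ k < N + 1, ¬ Vt h k <+: v
      · exact h2 v hk
      · push Not at hk
        obtain ⟨k, hk, s, rfl⟩ := hk
        rw [h1 k hk]
        by_contra hs
        have : tt s ≠ s := fun e => hs (by rw [e])
        obtain ⟨a, b, r, rfl⟩ := tt_len_two this
        exact H ⟨k, by omega, a, b, r, rfl⟩
    · rintro ⟨k, hk, a, b, r, rfl⟩ h
      rw [h1 k (by omega)] at h
      exact tt_moves a b r (List.append_cancel_left h)
  refine ⟨F, List.replicate (N + 1) false, fun i j => ⟨?_, ?_⟩⟩
  · rintro ⟨v, hvj, hv, hmin, m, hmi, hmv', hmp, hmax⟩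
    obtain ⟨k, hk, a, b, r, rfl⟩ := (hmv v).1 hv
    have hq := hmin (Vt h k ++ [a, b]) ⟨r, by simp⟩
      ((hmv _).2 ⟨k, hk, a, b, [], rfl⟩)
    have hr : r = [] := by
      simpa using hq.length_le
    subst hr
    have hj : j = h k := by
      rw [← hvj, ← hlen k hk]
      simp
    have hki : k ≤ i := by
      have h3 : List.replicate k false <+: Vt h k ++ [a, b] := by
        unfold Vt
        rw [List.append_assoc]
        exact List.prefix_append _ _
      have h4 : List.replicate k false <+: List.replicate (N + 1) false :=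
        ⟨List.replicate (N + 1 - k) false, by rw [List.replicate_append_replicate]; congr 1; omega⟩
      have := (hmax _ h3 h4).length_le
      rw [hmi] at this
      simpa using this
    have hik : i ≤ k := by
      by_contra hlt
      push Not at hlt
      obtain ⟨s, hs⟩ := hmv'
      obtain ⟨s', hs'⟩ := hmp
      have g1 : (m ++ s)[k]? = some true := by
        rw [hs]
        exact rep_get' (r := List.replicate (h k - k - 3) false) (List.prefix_append _ _)
      have g2 : (m ++ s')[k]? = some false := by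
        rw [hs']
        simp [List.getElem?_replicate]
        omega
      rw [List.getElem?_append_left (by omega)] at g1 g2
      rw [g1] at g2
      simp at g2
    have : i = k := Nat.le_antisymm hik hki
    subst this
    exact ⟨hk, hj⟩
  · rintro ⟨hi, rfl⟩
    refine ⟨Vt h i ++ [false, false], ?_, (hmv _).2 ⟨i, hi, false, false, [], rfl⟩, ?_,
      List.replicate i false, by simp, ?_, ?_, ?_⟩
    · rw [← hlen i hi]; simp
    · intro q hq hqm
      obtain ⟨k, hk, a, b, r, rfl⟩ := (hmv q).1 hqm
      have hik : k = i := Vt_disj ((List.prefix_append _ _).trans hq) (List.prefix_append _ _)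
      subst hik
      have : r = [] := by simpa using hq.length_le
      subst this
      have := hq.eq_of_length (by simp)
      rw [this]
    · unfold Vt
      rw [List.append_assoc]
      exact List.prefix_append _ _
    · exact ⟨List.replicate (N + 1 - i) false, by
        rw [List.replicate_append_replicate]; congr 1; omega⟩
    · intro q hq1 hq2
      have hlq : q.length ≤ i := by
        by_contra hlt
        push Not at hlt
        obtain ⟨s, hs⟩ := hq1
        obtain ⟨s', hs'⟩ := hq2
        have g1 : (q ++ s)[i]? = some true := by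
          rw [hs]
          exact rep_get' (r := List.replicate (h i - i - 3) false) (List.prefix_append _ _)
        have g2 : (q ++ s')[i]? = some false := by
          rw [hs']
          simp [List.getElem?_replicate]
          omega
        rw [List.getElem?_append_left (by omega)] at g1 g2
        rw [g1] at g2
        simp at g2
      have h3 : List.replicate i false <+: Vt h i ++ [false, false] := by
        unfold Vt
        rw [List.append_assoc]
        exact List.prefix_append _ _
      exact List.prefix_of_prefix_length_le hq1 h3 (by simpa using hlq)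

/-- the relation coded by `f` and `u`, for elements `x` and `y` coding vertices -/
def RelG (f u x y : Gr) : Prop :=
  ∃ v, Vert v ∧ (Lle v y ∧ Lle y v) ∧ Mv f v ∧ (∀ q, Vert q → Pre q v → Mv f q → Pre v q) ∧
    ∃ m, Vert m ∧ (Lle m x ∧ Lle x m) ∧ Pre m v ∧ Pre m u ∧
      ∀ q, Vert q → Pre q v → Pre q u → Pre q m

theorem relG_iff {f u x y : Gr} {p a b : List Bool} (hu : Code u p) (hx : Code x a)
    (hy : Code y b) : RelG f u x y ↔ RelN f p a.length b.length := by
  constructor
  · rintro ⟨v, hv, ⟨h1, h2⟩, h3, h4, m, hm, ⟨h5, h6⟩, h7, h8, h9⟩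
    obtain ⟨v', hv⟩ := vert_iff.1 hv
    obtain ⟨m', hm⟩ := vert_iff.1 hm
    rw [lle_iff hv hy] at h1
    rw [lle_iff hy hv] at h2
    rw [mv_iff hv] at h3
    rw [lle_iff hm hx] at h5
    rw [lle_iff hx hm] at h6
    rw [pre_iff hm hv] at h7
    rw [pre_iff hm hu] at h8
    refine ⟨v', Nat.le_antisymm h1 h2, h3, fun q hq hqm => ?_, m', Nat.le_antisymm h5 h6, h7, h8,
      fun q hq1 hq2 => ?_⟩
    · obtain ⟨z, hz⟩ := exists_code q
      exact (pre_iff hv hz).1 (h4 z (vert_iff.2 ⟨q, hz⟩) ((pre_iff hz hv).2 hq)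
        ((mv_iff hz).2 hqm))
    · obtain ⟨z, hz⟩ := exists_code q
      exact (pre_iff hz hm).1 (h9 z (vert_iff.2 ⟨q, hz⟩) ((pre_iff hz hv).2 hq1)
        ((pre_iff hz hu).2 hq2))
  · rintro ⟨v', h1, h3, h4, m', h5, h7, h8, h9⟩
    obtain ⟨v, hv⟩ := exists_code v'
    obtain ⟨m, hm⟩ := exists_code m'
    refine ⟨v, vert_iff.2 ⟨_, hv⟩, ⟨(lle_iff hv hy).2 h1.le, (lle_iff hy hv).2 h1.ge⟩,
      (mv_iff hv).2 h3, ?_, m, vert_iff.2 ⟨_, hm⟩, ⟨(lle_iff hm hx).2 h5.le,
      (lle_iff hx hm).2 h5.ge⟩, (pre_iff hm hv).2 h7, (pre_iff hm hu).2 h8, ?_⟩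
    · intro q hq hq1 hq2
      obtain ⟨q', hq⟩ := vert_iff.1 hq
      exact (pre_iff hv hq).2 (h4 q' ((pre_iff hq hv).1 hq1) ((mv_iff hq).1 hq2))
    · intro q hq hq1 hq2
      obtain ⟨q', hq⟩ := vert_iff.1 hq
      exact (pre_iff hq hm).2 (h9 q' ((pre_iff hq hv).1 hq1) ((pre_iff hq hu).1 hq2))

end Pool.Agent.Helper180.Grig
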