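import Mathlib
import Pool.Agent.Helper180.Grig.Rel
import Pool.Agent.Helper180.FO

/-! Interpretation of arithmetic in the Grigorchuk group. -/

namespace Pool.Agent.Helper180.Grig

open Pool.Agent.Helper180.Defs Pool.Agent.Helper180.ArithDef Pool.Agent.Helper180.FO

/-! ### definability of the basic predicates -/

/-- the term `x⁻¹ y x` -/
def cj (x y : ℕ) : Term := .mul (.mul (.inv (.var x)) (.var y)) (.var x)

/-- the equation `s t = t s` -/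
theorem dcomm (s t : Term) : DG (fun v : ℕ → Gr => s.eval v * t.eval v = t.eval v * s.eval v) :=
  DG.eqt (.mul s t) (.mul t s)

theorem dCp : DG (fun v : ℕ → Gr => v 0 ∈ Cp (v 1)) := by
  refine DG.and (dcomm (.var 0) (.var 1)) ?_
  refine DG.all (S := fun g v => ¬ ((g⁻¹ * v 1 * g) * v 1 = v 1 * (g⁻¹ * v 1 * g)) →
    v 0 * (g⁻¹ * v 1 * g) = (g⁻¹ * v 1 * g) * v 0) ?_
  exact DG.imp (DG.not (dcomm (cj 0 2) (.var 2))) (dcomm (.var 1) (cj 0 2))

theorem dBs : DG (fun v : ℕ → Gr => v 0 ∈ Bs (v 1)) := by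
  refine DG.all (S := fun z v => z ∈ Cp (v 1) → v 0 * z = z * v 0) ?_
  exact DG.imp (DG.app2 (P := fun x y => x ∈ Cp y) dCp 0 2) (dcomm (.var 1) (.var 0))

theorem dBs' (i j : ℕ) : DG (fun v : ℕ → Gr => v i ∈ Bs (v j)) :=
  DG.app2 (P := fun x y => x ∈ Bs y) dBs i j

/-- the conjugate `v i ⁻¹ v j v i` is in `Bs (v k)` -/
theorem dBsc (i j k : ℕ) : DG (fun v : ℕ → Gr => (v i)⁻¹ * v j * v i ∈ Bs (v k)) := by
  refine DG.iff (R := fun v => ∀ z, z = (v i)⁻¹ * v j * v i → z ∈ Bs (v k)) (fun v => by simp) ?_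
  refine DG.all (S := fun z v => z = (v i)⁻¹ * v j * v i → z ∈ Bs (v k)) ?_
  exact DG.imp (DG.eqt (.var 0) (cj (i + 1) (j + 1))) (dBs' 0 (k + 1))

theorem dVert : DG (fun v : ℕ → Gr => Vert (v 0)) := by
  have hN : ∀ i k : ℕ, DG (fun v : ℕ → Gr => ∀ y, y ∈ Bs (v k) ↔ (v i)⁻¹ * y * v i ∈ Bs (v k)) := by
    intro i k
    refine DG.all (S := fun y v => y ∈ Bs (v k) ↔ (v i)⁻¹ * y * v i ∈ Bs (v k)) ?_
    exact DG.iff' (dBs' 0 (k + 1)) (dBsc (i + 1) 0 (k + 1))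
  refine DG.and ?_ (DG.and ?_ ?_)
  · refine DG.ex (S := fun y v => y ∈ Bs (v 0) ∧ y ≠ 1) ?_
    exact DG.and (dBs' 0 1) (DG.not (DG.eqt (.var 0) .one))
  · refine DG.all (S := fun g v => (∀ y, y ∈ Bs (v 0) ↔ g⁻¹ * y * g ∈ Bs (v 0)) ∨
      (∀ y, y ∈ Bs (v 0) → ∀ y', y' ∈ Bs (v 0) → (g⁻¹ * y * g) * y' = y' * (g⁻¹ * y * g))) ?_
    refine DG.or (hN 0 1) ?_
    refine DG.all (S := fun y v => y ∈ Bs (v 1) → ∀ y', y' ∈ Bs (v 1) →
      ((v 0)⁻¹ * y * v 0) * y' = y' * ((v 0)⁻¹ * y * v 0)) ?_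
    refine DG.imp (dBs' 0 2) ?_
    refine DG.all (S := fun y' v => y' ∈ Bs (v 2) →
      ((v 1)⁻¹ * v 0 * v 1) * y' = y' * ((v 1)⁻¹ * v 0 * v 1)) ?_
    exact DG.imp (dBs' 0 3) (dcomm (cj 2 1) (.var 0))
  · refine DG.all (S := fun y v => (∀ g : Gr, ¬ (∀ y', y' ∈ Bs (v 0) ↔ g⁻¹ * y' * g ∈ Bs (v 0)) →
      ∀ y', y' ∈ Bs (v 0) → y * (g⁻¹ * y' * g) = (g⁻¹ * y' * g) * y) → y ∈ Bs (v 0)) ?_
    refine DG.imp ?_ (dBs' 0 1)
    refine DG.all (S := fun g v => ¬ (∀ y', y' ∈ Bs (v 1) ↔ g⁻¹ * y' * g ∈ Bs (v 1)) →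
      ∀ y', y' ∈ Bs (v 1) → v 0 * (g⁻¹ * y' * g) = (g⁻¹ * y' * g) * v 0) ?_
    refine DG.imp (DG.not (hN 0 2)) ?_
    refine DG.all (S := fun y' v => y' ∈ Bs (v 2) →
      v 1 * ((v 0)⁻¹ * y' * v 0) = ((v 0)⁻¹ * y' * v 0) * v 1) ?_
    exact DG.imp (dBs' 0 3) (dcomm (.var 2) (cj 1 0))

theorem dVert' (i : ℕ) : DG (fun v : ℕ → Gr => Vert (v i)) := DG.app1 (P := Vert) dVert i

theorem dPre (i j : ℕ) : DG (fun v : ℕ → Gr => Pre (v i) (v j)) :=
  DG.all (S := fun z v => z ∈ Bs (v j) → z ∈ Bs (v i)) (DG.imp (dBs' 0 (j + 1)) (dBs' 0 (i + 1)))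

theorem dLle (i j : ℕ) : DG (fun v : ℕ → Gr => Lle (v i) (v j)) := by
  refine DG.ex (S := fun g v => ∀ z, z ∈ Bs (v j) → g⁻¹ * z * g ∈ Bs (v i)) ?_
  refine DG.all (S := fun z v => z ∈ Bs (v (j + 1)) → (v 0)⁻¹ * z * v 0 ∈ Bs (v (i + 1))) ?_
  exact DG.imp (dBs' 0 (j + 2)) (dBsc 1 0 (i + 2))

theorem dMv (i j : ℕ) : DG (fun v : ℕ → Gr => Mv (v i) (v j)) := by
  refine DG.not ?_
  refine DG.all (S := fun z v => z ∈ Bs (v j) ↔ (v i)⁻¹ * z * v i ∈ Bs (v j)) ?_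
  exact DG.iff' (dBs' 0 (j + 1)) (dBsc (i + 1) 0 (j + 1))

theorem dRelG : DG (fun v : ℕ → Gr => RelG (v 0) (v 1) (v 2) (v 3)) := by
  refine DG.ex (S := fun s v => Vert s ∧ (Lle s (v 3) ∧ Lle (v 3) s) ∧ Mv (v 0) s ∧
    (∀ q, Vert q → Pre q s → Mv (v 0) q → Pre s q) ∧
    ∃ m, Vert m ∧ (Lle m (v 2) ∧ Lle (v 2) m) ∧ Pre m s ∧ Pre m (v 1) ∧
      ∀ q, Vert q → Pre q s → Pre q (v 1) → Pre q m) ?_
  refine DG.and (dVert' 0) (DG.and (DG.and (dLle 0 4) (dLle 4 0)) (DG.and (dMv 1 0)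
    (DG.and ?_ ?_)))
  · refine DG.all (S := fun q v => Vert q → Pre q (v 0) → Mv (v 1) q → Pre (v 0) q) ?_
    exact DG.imp (dVert' 0) (DG.imp (dPre 0 1) (DG.imp (dMv 2 0) (dPre 1 0)))
  · refine DG.ex (S := fun m v => Vert m ∧ (Lle m (v 3) ∧ Lle (v 3) m) ∧ Pre m (v 0) ∧
      Pre m (v 2) ∧ ∀ q, Vert q → Pre q (v 0) → Pre q (v 2) → Pre q m) ?_
    refine DG.and (dVert' 0) (DG.and (DG.and (dLle 0 4) (dLle 4 0)) (DG.and (dPre 0 1)
      (DG.and (dPre 0 3) ?_)))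
    refine DG.all (S := fun q v => Vert q → Pre q (v 1) → Pre q (v 3) → Pre q (v 0)) ?_
    exact DG.imp (dVert' 0) (DG.imp (dPre 0 2) (DG.imp (dPre 0 4) (dPre 0 1)))

/-! ### the interpretation of the naturals -/

/-- `x` represents the natural number `n` -/
def Rep (x : Gr) (n : ℕ) : Prop := ∃ v : List Bool, Code x v ∧ v.length = n

theorem exists_rep (n : ℕ) : ∃ x, Rep x n := by
  obtain ⟨x, hx⟩ := exists_code (List.replicate n false)
  exact ⟨x, _, hx, by simp⟩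

theorem vert_iff_rep {x : Gr} : Vert x ↔ ∃ n, Rep x n := by
  rw [vert_iff]
  constructor
  · rintro ⟨v, hv⟩; exact ⟨_, v, hv, rfl⟩
  · rintro ⟨n, v, hv, _⟩; exact ⟨v, hv⟩

theorem rep_unique {x : Gr} {m n : ℕ} (h : Rep x m) (h' : Rep x n) : m = n := by
  obtain ⟨v, hv, rfl⟩ := h
  obtain ⟨w, hw, rfl⟩ := h'
  rw [code_unique hv hw]

/-- predicates on sequences of naturals definable in the group -/
def DD (R : (ℕ → ℕ) → Prop) : Prop :=
  ∃ S : (ℕ → Gr) → Prop, DG S ∧ ∀ v w, (∀ i, Rep (v i) (w i)) → (S v ↔ R w)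

/-- predicates on a coded relation and sequences of naturals definable in the group -/
def D2 (P : (ℕ → ℕ → Prop) → (ℕ → ℕ) → Prop) : Prop :=
  ∃ S : (ℕ → Gr) → Prop, DG S ∧ ∀ (f u : Gr) (p : List Bool) v w, Code u p →
    (∀ i, Rep (v i) (w i)) → (S (cns f (cns u v)) ↔ P (RelN f p) w)

theorem rep_cns {x : Gr} {n : ℕ} {v : ℕ → Gr} {w : ℕ → ℕ} (h : Rep x n)
    (hv : ∀ i, Rep (v i) (w i)) : ∀ i, Rep (cns x v i) (cns n w i) := by
  intro i
  cases i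
  · exact h
  · exact hv _

namespace D2

theorem iff {P Q : (ℕ → ℕ → Prop) → (ℕ → ℕ) → Prop} (h : ∀ R w, P R w ↔ Q R w) (hP : D2 P) :
    D2 Q := by
  obtain ⟨S, h1, h2⟩ := hP
  exact ⟨S, h1, fun f u p v w hu hv => (h2 f u p v w hu hv).trans (h _ _)⟩

theorem imp {P Q : (ℕ → ℕ → Prop) → (ℕ → ℕ) → Prop} (hP : D2 P) (hQ : D2 Q) :
    D2 (fun R w => P R w → Q R w) := by
  obtain ⟨S, h1, h2⟩ := hP
  obtain ⟨T, h3, h4⟩ := hQ
  exact ⟨fun v => S v → T v, DG.imp h1 h3, fun f u p v w hu hv =>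
    imp_congr (h2 f u p v w hu hv) (h4 f u p v w hu hv)⟩

theorem not {P : (ℕ → ℕ → Prop) → (ℕ → ℕ) → Prop} (hP : D2 P) :
    D2 (fun R w => ¬ P R w) := by
  obtain ⟨S, h1, h2⟩ := hP
  exact ⟨fun v => ¬ S v, DG.not h1, fun f u p v w hu hv => not_congr (h2 f u p v w hu hv)⟩

theorem and {P Q : (ℕ → ℕ → Prop) → (ℕ → ℕ) → Prop} (hP : D2 P) (hQ : D2 Q) :
    D2 (fun R w => P R w ∧ Q R w) := by
  obtain ⟨S, h1, h2⟩ := hP
  obtain ⟨T, h3, h4⟩ := hQ
  exact ⟨fun v => S v ∧ T v, DG.and h1 h3, fun f u p v w hu hv =>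
    and_congr (h2 f u p v w hu hv) (h4 f u p v w hu hv)⟩

theorem all {P : ℕ → (ℕ → ℕ → Prop) → (ℕ → ℕ) → Prop}
    (hP : D2 (fun R w => P (w 0) R (fun n => w (n + 1)))) : D2 (fun R w => ∀ a, P a R w) := by
  obtain ⟨S, h1, h2⟩ := hP
  refine ⟨fun v => ∀ x, Vert x → S (cns (v 0) (cns (v 1) (cns x (fun n => v (n + 2))))), ?_, ?_⟩
  · refine DG.all (S := fun x v => Vert x → S (cns (v 0) (cns (v 1) (cns x (fun n => v (n + 2))))))
      (DG.imp (dVert' 0) ?_)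
    have := DG.ren (fun n => match n with | 0 => 1 | 1 => 2 | 2 => 0 | n + 3 => n + 3) h1
    refine DG.iff (fun v => ?_) this
    apply iff_of_eq
    congr 1
    funext n
    rcases n with _ | _ | _ | n <;> rfl
  · intro f u p v w hu hv
    constructor
    · intro h a
      obtain ⟨x, hx⟩ := exists_rep a
      exact (h2 f u p (cns x v) (cns a w) hu (rep_cns hx hv)).1 (h x (vert_iff_rep.2 ⟨a, hx⟩))
    · intro h x hx
      obtain ⟨a, hx⟩ := vert_iff_rep.1 hx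
      exact (h2 f u p (cns x v) (cns a w) hu (rep_cns hx hv)).2 (h a)

theorem ex {P : ℕ → (ℕ → ℕ → Prop) → (ℕ → ℕ) → Prop}
    (hP : D2 (fun R w => P (w 0) R (fun n => w (n + 1)))) : D2 (fun R w => ∃ a, P a R w) :=
  iff (fun R w => by simp) (not (all (P := fun a R w => ¬ P a R w) (not hP)))

theorem of {Q : (ℕ → ℕ) → Prop} (h : DD Q) (ρ : ℕ → ℕ) : D2 (fun _ w => Q (fun n => w (ρ n))) := by
  obtain ⟨S, h1, h2⟩ := h
  exact ⟨fun v => S (fun n => v (ρ n + 2)), DG.ren (fun n => ρ n + 2) h1,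
    fun f u p v w _ hv => h2 _ _ (fun i => hv (ρ i))⟩

theorem rel (i j : ℕ) : D2 (fun R w => R (w i) (w j)) := by
  refine ⟨fun v => RelG (v 0) (v 1) (v (i + 2)) (v (j + 2)),
    DG.app4 (P := RelG) dRelG 0 1 (i + 2) (j + 2), ?_⟩
  intro f u p v w hu hv
  obtain ⟨a, ha, ha'⟩ := hv i
  obtain ⟨b, hb, hb'⟩ := hv j
  show RelG f u (v i) (v j) ↔ RelN f p (w i) (w j)
  rw [← ha', ← hb']
  exact relG_iff hu ha hb

theorem le (i j : ℕ) : D2 (fun _ w => w i ≤ w j) := by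
  refine ⟨fun v => Lle (v (i + 2)) (v (j + 2)), dLle (i + 2) (j + 2), ?_⟩
  intro f u p v w hu hv
  obtain ⟨a, ha, ha'⟩ := hv i
  obtain ⟨b, hb, hb'⟩ := hv j
  show Lle (v i) (v j) ↔ w i ≤ w j
  rw [← ha', ← hb']
  exact lle_iff ha hb

theorem lt (i j : ℕ) : D2 (fun _ w => w i < w j) :=
  iff (fun R w => by omega) (not (le j i))

theorem zero (i : ℕ) : D2 (fun _ w => w i = 0) := by
  refine iff (P := fun _ w => ∀ a, w i ≤ a) (fun R w => ?_)
    (all (P := fun a _ w => w i ≤ a) (le (i + 1) 0))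
  constructor
  · intro h; have := h 0; omega
  · intro h a; omega

theorem succ (i j : ℕ) : D2 (fun _ w => w j = w i + 1) := by
  refine iff (P := fun _ w => w i < w j ∧ ∀ a, w i < a → w j ≤ a) (fun R w => ?_)
    (and (lt i j) (all (P := fun a _ w => w i < a → w j ≤ a) (imp (lt (i + 1) 0) (le (j + 1) 0))))
  constructor
  · rintro ⟨h1, h2⟩
    have := h2 (w i + 1) (by omega)
    omega
  · intro h
    exact ⟨by omega, fun a ha => by omega⟩

theorem succ3 (i j : ℕ) : D2 (fun _ w => w j = w i + 3) := by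
  refine iff (P := fun _ w => ∃ a, a = w i + 1 ∧ ∃ b, b = a + 1 ∧ w j = b + 1) (fun R w => ?_)
    (ex (P := fun a _ w => a = w i + 1 ∧ ∃ b, b = a + 1 ∧ w j = b + 1)
      (and (succ (i + 1) 0) (ex (P := fun b _ w => b = w 0 + 1 ∧ w (j + 1) = b + 1)
        (and (succ 1 0) (succ 0 (j + 2))))))
  constructor
  · rintro ⟨a, h1, b, h2, h3⟩; omega
  · intro h; exact ⟨_, rfl, _, rfl, by omega⟩

theorem close {P : (ℕ → ℕ → Prop) → (ℕ → ℕ) → Prop} (hP : D2 P) :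
    DD (fun w => ∃ (f : Gr) (p : List Bool), P (RelN f p) w) := by
  obtain ⟨S, h1, h2⟩ := hP
  refine ⟨fun v => ∃ f u, Vert u ∧ S (cns f (cns u v)), ?_, ?_⟩
  · refine DG.ex (S := fun f v => ∃ u, Vert u ∧ S (cns f (cns u v))) ?_
    refine DG.ex (S := fun u v => Vert u ∧ S (cns (v 0) (cns u (fun n => v (n + 1))))) ?_
    refine DG.and (dVert' 0) ?_
    have := DG.ren (fun n => match n with | 0 => 1 | 1 => 0 | n + 2 => n + 2) h1
    refine DG.iff (fun v => ?_) this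
    apply iff_of_eq
    congr 1
    funext n
    rcases n with _ | _ | n <;> rfl
  · intro v w hv
    constructor
    · rintro ⟨f, u, hu, h⟩
      obtain ⟨p, hp⟩ := vert_iff.1 hu
      exact ⟨f, p, (h2 f u p v w hp hv).1 h⟩
    · rintro ⟨f, p, h⟩
      obtain ⟨u, hu⟩ := exists_code p
      exact ⟨f, u, vert_iff.2 ⟨p, hu⟩, (h2 f u p v w hu hv).2 h⟩

end D2

namespace DD

theorem iff {P Q : (ℕ → ℕ) → Prop} (h : ∀ w, P w ↔ Q w) (hP : DD P) : DD Q := by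
  obtain ⟨S, h1, h2⟩ := hP
  exact ⟨S, h1, fun v w hv => (h2 v w hv).trans (h _)⟩

theorem imp {P Q : (ℕ → ℕ) → Prop} (hP : DD P) (hQ : DD Q) : DD (fun w => P w → Q w) := by
  obtain ⟨S, h1, h2⟩ := hP
  obtain ⟨T, h3, h4⟩ := hQ
  exact ⟨fun v => S v → T v, DG.imp h1 h3, fun v w hv => imp_congr (h2 v w hv) (h4 v w hv)⟩

theorem bot : DD (fun _ => False) :=
  ⟨fun _ => False, DG.iff (R := fun v => ¬ (v 0 = v 0)) (fun v => by simp)
    (DG.not (DG.eqt (.var 0) (.var 0))), fun _ _ _ => Iff.rfl⟩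

theorem not {P : (ℕ → ℕ) → Prop} (hP : DD P) : DD (fun w => ¬ P w) := imp hP bot

theorem and {P Q : (ℕ → ℕ) → Prop} (hP : DD P) (hQ : DD Q) : DD (fun w => P w ∧ Q w) :=
  iff (fun w => by tauto) (not (imp hP (not hQ)))

theorem or {P Q : (ℕ → ℕ) → Prop} (hP : DD P) (hQ : DD Q) : DD (fun w => P w ∨ Q w) :=
  iff (fun w => by tauto) (imp (not hP) hQ)

theorem of0 {Q : (ℕ → ℕ) → Prop} (h : D2 (fun _ w => Q w)) : DD Q :=
  iff (P := fun w => ∃ (_ : Gr) (_ : List Bool), Q w) (fun _ =>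
    ⟨fun ⟨_, _, h⟩ => h, fun h => ⟨1, [], h⟩⟩) (D2.close h)

theorem add : DD (fun w => w 0 + w 1 = w 2) := by
  have h1 : D2 (fun R w => (∀ z, ∀ j, z = 0 → R z j → j = w 0 + 3)) := by
    refine D2.all (P := fun z R w => ∀ j, z = 0 → R z j → j = w 0 + 3) ?_
    refine D2.all (P := fun j R w => w 0 = 0 → R (w 0) j → j = w 1 + 3) ?_
    exact D2.imp (D2.zero 1) (D2.imp (D2.rel 1 0) (D2.succ3 2 0))
  have h2 : D2 (fun R w => (∀ i j i', i < w 1 → i' = i + 1 → R i' j →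
      ∃ j', j = j' + 1 ∧ R i j')) := by
    refine D2.all (P := fun i R w => ∀ j i', i < w 1 → i' = i + 1 → R i' j →
      ∃ j', j = j' + 1 ∧ R i j') ?_
    refine D2.all (P := fun j R w => ∀ i', w 0 < w 2 → i' = w 0 + 1 → R i' j →
      ∃ j', j = j' + 1 ∧ R (w 0) j') ?_
    refine D2.all (P := fun i' R w => w 1 < w 3 → i' = w 1 + 1 → R i' (w 0) →
      ∃ j', w 0 = j' + 1 ∧ R (w 1) j') ?_
    refine D2.imp (D2.lt 2 4) (D2.imp (D2.succ 2 0) (D2.imp (D2.rel 0 1) ?_))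
    refine D2.ex (P := fun j' R w => w 1 = j' + 1 ∧ R (w 2) j') ?_
    exact D2.and (D2.succ 0 2) (D2.rel 3 0)
  have h3 : D2 (fun R w => ∃ j, R (w 1) j ∧ j = w 2 + 3) := by
    refine D2.ex (P := fun j R w => R (w 1) j ∧ j = w 2 + 3) ?_
    exact D2.and (D2.rel 2 0) (D2.succ3 3 0)
  refine iff (fun w => ?_) (D2.close (D2.and h1 (D2.and h2 h3)))
  constructor
  · rintro ⟨f, p, a1, a2, j, a3, a4⟩
    have key : ∀ i ≤ w 1, ∀ j, RelN f p i j → j = w 0 + i + 3 := by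
      intro i
      induction i with
      | zero => intro _ j hj; exact a1 0 j rfl hj
      | succ i ih =>
        intro hi j hj
        obtain ⟨j', e, hj'⟩ := a2 i j (i + 1) (by omega) rfl hj
        have := ih (by omega) j' hj'
        omega
    have := key (w 1) le_rfl j a3
    omega
  · intro hw
    obtain ⟨f, p, hf⟩ := exists_rel (fun i => w 0 + i + 3) (w 1) (fun i _ => by omega)
    refine ⟨f, p, ?_, ?_, w 2 + 3, ?_, rfl⟩
    · intro z j hz hj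
      have := ((hf z j).1 hj).2
      omega
    · intro i j i' hi hi' hj
      have := (hf i' j).1 hj
      exact ⟨w 0 + i + 3, by omega, (hf i _).2 ⟨by omega, rfl⟩⟩
    · exact (hf _ _).2 ⟨le_rfl, by omega⟩

theorem mul : DD (fun w => w 0 * w 1 = w 2) := by
  have h1 : D2 (fun R w => (∀ z, ∀ j, z = 0 → R z j → j = z + 3)) := by
    refine D2.all (P := fun z R w => ∀ j, z = 0 → R z j → j = z + 3) ?_
    refine D2.all (P := fun j R w => w 0 = 0 → R (w 0) j → j = w 0 + 3) ?_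
    exact D2.imp (D2.zero 1) (D2.imp (D2.rel 1 0) (D2.succ3 1 0))
  have h2 : D2 (fun R w => (∀ i j i', i < w 1 → i' = i + 1 → R i' j →
      ∃ j', w 0 + j' = j ∧ R i j')) := by
    refine D2.all (P := fun i R w => ∀ j i', i < w 1 → i' = i + 1 → R i' j →
      ∃ j', w 0 + j' = j ∧ R i j') ?_
    refine D2.all (P := fun j R w => ∀ i', w 0 < w 2 → i' = w 0 + 1 → R i' j →
      ∃ j', w 1 + j' = j ∧ R (w 0) j') ?_
    refine D2.all (P := fun i' R w => w 1 < w 3 → i' = w 1 + 1 → R i' (w 0) →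
      ∃ j', w 2 + j' = w 0 ∧ R (w 1) j') ?_
    refine D2.imp (D2.lt 2 4) (D2.imp (D2.succ 2 0) (D2.imp (D2.rel 0 1) ?_))
    refine D2.ex (P := fun j' R w => w 3 + j' = w 1 ∧ R (w 2) j') ?_
    exact D2.and (D2.of add (fun n => match n with | 0 => 4 | 1 => 0 | _ => 2)) (D2.rel 3 0)
  have h3 : D2 (fun R w => ∃ j, R (w 1) j ∧ j = w 2 + 3) := by
    refine D2.ex (P := fun j R w => R (w 1) j ∧ j = w 2 + 3) ?_
    exact D2.and (D2.rel 2 0) (D2.succ3 3 0)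
  refine iff (fun w => ?_) (or (and (of0 (D2.zero 0)) (of0 (D2.zero 2)))
    (and (not (of0 (D2.zero 0))) (D2.close (D2.and h1 (D2.and h2 h3)))))
  constructor
  · rintro (⟨h0, h0'⟩ | ⟨h0, f, p, a1, a2, j, a3, a4⟩)
    · rw [h0, h0', zero_mul]
    · have key : ∀ i ≤ w 1, ∀ j, RelN f p i j → j = w 0 * i + 3 := by
        intro i
        induction i with
        | zero => intro _ j hj; simpa using a1 0 j rfl hj
        | succ i ih =>
          intro hi j hj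
          obtain ⟨j', e, hj'⟩ := a2 i j (i + 1) (by omega) rfl hj
          have := ih (by omega) j' hj'
          rw [← e, this]
          ring
      have := key (w 1) le_rfl j a3
      omega
  · intro hw
    by_cases h0 : w 0 = 0
    · left
      refine ⟨h0, ?_⟩
      rw [← hw, h0, zero_mul]
    · right
      refine ⟨h0, ?_⟩
      have hpos : 1 ≤ w 0 := Nat.one_le_iff_ne_zero.2 h0
      obtain ⟨f, p, hf⟩ := exists_rel (fun i => w 0 * i + 3) (w 1) (fun i _ => by nlinarith)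
      refine ⟨f, p, ?_, ?_, w 2 + 3, ?_, rfl⟩
      · intro z j hz hj
        have := ((hf z j).1 hj).2
        subst hz
        simpa using this
      · intro i j i' hi hi' hj
        have := (hf i' j).1 hj
        refine ⟨w 0 * i + 3, ?_, (hf i _).2 ⟨by omega, rfl⟩⟩
        rw [this.2, hi']
        ring
      · exact (hf _ _).2 ⟨le_rfl, by rw [hw]⟩

theorem all {P : (ℕ → ℕ) → Prop} (hP : DD P) : DD (fun w => ∀ a, P (cns a w)) := by
  obtain ⟨S, h1, h2⟩ := hP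
  refine ⟨fun v => ∀ x, Vert x → S (cns x v), ?_, ?_⟩
  · refine DG.all (S := fun x v => Vert x → S (cns x v)) (DG.imp (dVert' 0) ?_)
    refine DG.iff (fun v => ?_) h1
    apply iff_of_eq
    congr 1
    exact (cns_eta v).symm
  · intro v w hv
    constructor
    · intro h a
      obtain ⟨x, hx⟩ := exists_rep a
      exact (h2 (cns x v) (cns a w) (rep_cns hx hv)).1 (h x (vert_iff_rep.2 ⟨a, hx⟩))
    · intro h x hx
      obtain ⟨a, hx⟩ := vert_iff_rep.1 hx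
      exact (h2 (cns x v) (cns a w) (rep_cns hx hv)).2 (h a)

theorem ren {P : (ℕ → ℕ) → Prop} (ρ : ℕ → ℕ) (hP : DD P) : DD (fun w => P (fun i => w (ρ i))) := by
  obtain ⟨S, h1, h2⟩ := hP
  exact ⟨fun v => S (fun n => v (ρ n)), DG.ren ρ h1, fun v w hv => h2 _ _ (fun i => hv (ρ i))⟩

end DD

theorem closed : DC DD where
  add := DD.add
  mul := DD.mul
  bot := DD.bot
  imp := DD.imp
  all := DD.all
  ren := DD.ren

end Pool.Agent.Helper180.Grig
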