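import Mathlib
import Pool.Agent.Helper180.Grig.Interp

/-! The elementary theory of the Grigorchuk group is undecidable. -/

namespace Pool.Agent.Helper180.Grig

open Pool.Agent.Helper180.Defs Pool.Agent.Helper180.ArithDef Pool.Agent.Helper180.FO

theorem mkV (i : ℕ) : ∃ φ : Formula, φ.free ⊆ {i} ∧ ∀ v : ℕ → Gr, φ.Holds v ↔ Vert (v i) := by
  obtain ⟨φ, hφ⟩ := dVert
  obtain ⟨φ', h1, h2⟩ := exists_ren Gr φ (fun _ => i)
  refine ⟨φ', h2.trans ?_, fun v => by rw [h1, hφ]⟩
  intro y hy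
  obtain ⟨_, _, rfl⟩ := Finset.mem_image.1 hy
  simp

theorem mk1 {P : (ℕ → ℕ) → Prop} (hP : DD P) : ∃ φ : Formula, φ.free ⊆ {0} ∧
    ∀ (v : ℕ → Gr) (n : ℕ), Rep (v 0) n → (φ.Holds v ↔ P (fun _ => n)) := by
  obtain ⟨S, ⟨φ, hφ⟩, h⟩ := hP
  obtain ⟨φ', h1, h2⟩ := exists_ren Gr φ (fun _ => 0)
  refine ⟨φ', h2.trans ?_, fun v n hn => ?_⟩
  · intro y hy
    obtain ⟨_, _, rfl⟩ := Finset.mem_image.1 hy
    simp
  · rw [h1, hφ]
    exact h _ _ (fun _ => hn)

theorem mk2 {P : (ℕ → ℕ) → Prop} (hP : DD P) : ∃ φ : Formula, φ.free ⊆ {0, 1} ∧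
    ∀ (v : ℕ → Gr) (m n : ℕ), Rep (v 0) m → Rep (v 1) n →
      (φ.Holds v ↔ P (cns m (fun _ => n))) := by
  obtain ⟨S, ⟨φ, hφ⟩, h⟩ := hP
  obtain ⟨φ', h1, h2⟩ := exists_ren Gr φ (fun k => if k = 0 then 0 else 1)
  refine ⟨φ', h2.trans ?_, fun v m n hm hn => ?_⟩
  · intro y hy
    obtain ⟨k, _, rfl⟩ := Finset.mem_image.1 hy
    by_cases hk : k = 0 <;> simp [hk]
  · rw [h1, hφ]
    refine h _ _ (fun i => ?_)
    rcases i with _ | i
    · exact hm
    · exact hn

/-- the formula saying that variable `0` represents `n` -/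
def repF (V0 V1 Z S : Formula) : ℕ → Formula
  | 0 => .and V0 Z
  | n + 1 => .and V0 (.ex 1 (.and V1 (.and S (.ex 0 (.and (.eq (.var 0) (.var 1))
      (repF V0 V1 Z S n))))))

/-- the sentence saying that every representative of `n` satisfies `H` -/
def sent (V0 V1 Z S H : Formula) (n : ℕ) : Formula := .all 0 (.imp (repF V0 V1 Z S n) H)

section

variable {V0 V1 Z S H : Formula}

theorem holds_repF (hV0 : ∀ v : ℕ → Gr, V0.Holds v ↔ Vert (v 0))
    (hV1 : ∀ v : ℕ → Gr, V1.Holds v ↔ Vert (v 1))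
    (hZ : ∀ (v : ℕ → Gr) (n : ℕ), Rep (v 0) n → (Z.Holds v ↔ n = 0))
    (hS : ∀ (v : ℕ → Gr) (m n : ℕ), Rep (v 0) m → Rep (v 1) n → (S.Holds v ↔ m = n + 1)) :
    ∀ (n : ℕ) (v : ℕ → Gr), (repF V0 V1 Z S n).Holds v ↔ Rep (v 0) n := by
  intro n
  induction n with
  | zero =>
    intro v
    simp only [repF, Formula.Holds, hV0]
    constructor
    · rintro ⟨h1, h2⟩
      obtain ⟨m, hm⟩ := vert_iff_rep.1 h1
      have := (hZ v m hm).1 h2
      rwa [this] at hm
    · intro h
      exact ⟨vert_iff_rep.2 ⟨0, h⟩, (hZ v 0 h).2 rfl⟩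
  | succ n ih =>
    intro v
    simp only [repF, Formula.Holds, hV0, hV1, ih, Term.eval, Function.update_self]
    constructor
    · rintro ⟨h1, g, h2, h3, g', h4, h5⟩
      obtain ⟨m, hm⟩ := vert_iff_rep.1 h1
      rw [Function.update_of_ne (by decide), Function.update_self] at h4
      subst h4
      have h6 := (hS _ m n (by rwa [Function.update_of_ne (by decide)])
        (by rwa [Function.update_self])).1 h3
      rwa [h6] at hm
    · intro h
      obtain ⟨x, hx⟩ := exists_rep n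
      refine ⟨vert_iff_rep.2 ⟨_, h⟩, x, vert_iff_rep.2 ⟨_, hx⟩, ?_, x, ?_, hx⟩
      · exact (hS _ (n + 1) n (by rwa [Function.update_of_ne (by decide)])
          (by rwa [Function.update_self])).2 rfl
      · rw [Function.update_of_ne (by decide), Function.update_self]

theorem free_repF (hV0 : V0.free ⊆ {0}) (hV1 : V1.free ⊆ {1}) (hZ : Z.free ⊆ {0})
    (hS : S.free ⊆ {0, 1}) : ∀ n, (repF V0 V1 Z S n).free ⊆ {0} := by
  intro n
  induction n with
  | zero =>
    simp only [repF, Formula.free]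
    exact Finset.union_subset hV0 hZ
  | succ n ih =>
    intro y hy
    simp only [repF, Formula.free, Term.vars, Finset.mem_union, Finset.mem_erase,
      Finset.mem_singleton] at hy
    rcases hy with hy | ⟨hy1, hy | hy | ⟨hy2, (hy | hy) | hy⟩⟩
    · exact hV0 hy
    · exact absurd (Finset.mem_singleton.1 (hV1 hy)) hy1
    · have := hS hy
      simp only [Finset.mem_insert, Finset.mem_singleton] at this ⊢
      rcases this with h | h
      · exact h
      · exact absurd h hy1
    · exact absurd hy hy2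
    · exact absurd hy hy1
    · exact ih hy

theorem primrec_repF : Primrec (fun n => (repF V0 V1 Z S n).code) := by
  have h : Primrec (Nat.rec (Nat.pair 2 (Nat.pair V0.code Z.code))
      (fun (_ : ℕ) (c : ℕ) => Nat.pair 2 (Nat.pair V0.code (Nat.pair 5 (Nat.pair 1 (Nat.pair 2
        (Nat.pair V1.code (Nat.pair 2 (Nat.pair S.code (Nat.pair 5 (Nat.pair 0 (Nat.pair 2
          (Nat.pair (Formula.code (.eq (.var 0) (.var 1))) c)))))))))))) : ℕ → ℕ) := by
    apply Primrec.nat_rec₁
    have hp : ∀ (a : ℕ) {f : ℕ × ℕ → ℕ}, Primrec f → Primrec (fun n => Nat.pair a (f n)) :=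
      fun a f hf => Primrec₂.natPair.comp (Primrec.const a) hf
    exact (hp _ (hp _ (hp _ (hp _ (hp _ (hp _ (hp _ (hp _ (hp _ (hp _ (hp _ (hp _
      Primrec.snd)))))))))))).to₂
  apply h.of_eq
  intro n
  induction n with
  | zero => rfl
  | succ n ih =>
    simp only [repF, Formula.code]
    rw [← ih]
    simp only [Formula.code]

theorem primrec_sent : Primrec (fun n => (sent V0 V1 Z S H n).code) := by
  have hp : ∀ (a : ℕ) {f : ℕ → ℕ}, Primrec f → Primrec (fun n => Nat.pair a (f n)) :=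
    fun a f hf => Primrec₂.natPair.comp (Primrec.const a) hf
  exact hp 4 (hp 0 (hp 3 (Primrec₂.natPair.comp primrec_repF (Primrec.const H.code))))

end

theorem undecidable : ¬ IsDecidable theoryGr := by
  intro hdec
  obtain ⟨V0, fV0, hV0⟩ := mkV 0
  obtain ⟨V1, fV1, hV1⟩ := mkV 1
  obtain ⟨Z, fZ, hZ⟩ := mk1 (DD.of0 (D2.zero 0))
  obtain ⟨S, fS, hS⟩ := mk2 (DD.of0 (D2.succ 1 0))
  obtain ⟨H, fH, hH⟩ := mk1 closed.halt
  have hrep := holds_repF hV0 hV1 hZ hS
  have hfree := free_repF fV0 fV1 fZ fS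
  have hmem : ∀ n, sent V0 V1 Z S H n ∈ theoryGr ↔ Halt n := by
    intro n
    constructor
    · rintro ⟨_, h⟩
      obtain ⟨x, hx⟩ := exists_rep n
      have h1 := h (fun _ => x) x
      simp only [Formula.Holds] at h1
      rw [hrep] at h1
      have h2 := h1 (by rwa [Function.update_self])
      exact (hH _ n (by rwa [Function.update_self])).1 h2
    · intro h
      refine ⟨?_, fun v x => ?_⟩
      · rw [← Finset.subset_empty]
        intro y hy
        simp only [sent, Formula.free, Finset.mem_erase, Finset.mem_union] at hy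
        rcases hy with ⟨hy0, hy | hy⟩
        · exact absurd (Finset.mem_singleton.1 (hfree n hy)) hy0
        · exact absurd (Finset.mem_singleton.1 (fH hy)) hy0
      · simp only [Formula.Holds]
        rw [hrep]
        intro hx
        exact (hH _ n hx).2 h
  apply halt_not_computable
  obtain ⟨f, hf, hf'⟩ := ComputablePred.computable_iff.1 hdec
  refine ComputablePred.computable_iff.2 ⟨fun n => f ((sent V0 V1 Z S H n).code),
    hf.comp primrec_sent.to_comp, ?_⟩
  funext n
  have h1 := congrFun hf' ((sent V0 V1 Z S H n).code)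
  refine Eq.trans ?_ h1
  apply propext
  rw [← hmem]
  constructor
  · intro h
    exact ⟨_, h, rfl⟩
  · rintro ⟨φ, hφ, e⟩
    rwa [← code_injective _ _ e]

end Pool.Agent.Helper180.Grig
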